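import Pool.Agent.Y301.TB.Two

set_option autoImplicit false

open MvPolynomial
open Pool.Agent.Results.MP_9bafdc_mp.NotStar (Pol gen evalM conjGen conj IsPoisson IsTraceBracket
  IsHomogeneousBracket word FormStar)

namespace Pool.Agent.Y301.TB.OneTwo

/-- evaluation at a complex matrix -/
noncomputable def ex (x : Matrix (Fin 2) (Fin 2) ℂ) : Pol 1 2 →ₐ[ℂ] ℂ :=
  aeval fun a => x a.2.1 a.2.2

lemma ex_X (x : Matrix (Fin 2) (Fin 2) ℂ) (a : Fin 1) (i j : Fin 2) :
    ex x (X (a, i, j)) = x i j := by simp [ex]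

lemma ex_conj (g : (Matrix (Fin 2) (Fin 2) ℂ)ˣ) (x : Matrix (Fin 2) (Fin 2) ℂ) (f : Pol 1 2) :
    ex x (conj g f) = ex (g.val * x * g⁻¹.val) f := by
  have h : (ex x).comp (conj g) = ex (g.val * x * g⁻¹.val) := by
    apply algHom_ext
    rintro ⟨a, i, j⟩
    obtain rfl : a = 0 := Subsingleton.elim _ _
    rw [AlgHom.comp_apply, conj_X, ex_X]
    simp only [map_sum, map_smul, ex_X, smul_eq_mul, Matrix.mul_apply, Finset.sum_mul]
    refine Finset.sum_congr rfl fun b _ => Finset.sum_congr rfl fun c _ => ?_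
    ring
  exact DFunLike.congr_fun h f

variable {B : Pol 1 2 → Pol 1 2 → Pol 1 2}

lemma add_right (hB : IsPoisson B) (f g h : Pol 1 2) : B f (g + h) = B f g + B f h := by
  rw [hB.antisymm, hB.add_left, hB.antisymm g f, hB.antisymm h f]; ring

lemma smul_right (hB : IsPoisson B) (c : ℂ) (f g : Pol 1 2) : B f (c • g) = c • B f g := by
  rw [hB.antisymm, hB.smul_left, hB.antisymm g f, smul_neg, neg_neg]

/-- the value of the bracket at a point -/
noncomputable def bt (B : Pol 1 2 → Pol 1 2 → Pol 1 2) (x : Matrix (Fin 2) (Fin 2) ℂ)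
    (i j p q : Fin 2) : ℂ := ex x (B (X (0, i, j)) (X (0, p, q)))

lemma bt_conj (hB : IsTraceBracket B) (g : (Matrix (Fin 2) (Fin 2) ℂ)ˣ)
    (x : Matrix (Fin 2) (Fin 2) ℂ) (i j p q : Fin 2) :
    bt B (g.val * x * g⁻¹.val) i j p q = ∑ b, ∑ a, ∑ d, ∑ e,
      (g.val i a * g⁻¹.val b j) * (g.val p e * g⁻¹.val d q) * bt B x a b e d := by
  unfold bt
  rw [← ex_conj, hB.invariant, conj_X, conj_X]
  simp only [Fin.sum_univ_two, hB.poisson.add_left, hB.poisson.smul_left, add_right hB.poisson,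
    smul_right hB.poisson, map_add, map_smul, smul_eq_mul]
  ring

lemma bt_antisymm (hB : IsTraceBracket B) (x : Matrix (Fin 2) (Fin 2) ℂ) (i j p q : Fin 2) :
    bt B x i j p q = - bt B x p q i j := by
  unfold bt
  rw [hB.poisson.antisymm, map_neg]

/-- diagonal matrices -/
def dg (s t : ℂ) : Matrix (Fin 2) (Fin 2) ℂ := !![s, 0; 0, t]

lemma torus (hB : IsTraceBracket B) (s t : ℂ) (i j p q : Fin 2)
    (h : ¬ ((i = j ∧ p = q) ∨ (i = q ∧ p = j))) : bt B (dg s t) i j p q = 0 := by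
  have hdet : (!![2, 0; 0, 1] : Matrix (Fin 2) (Fin 2) ℂ).det ≠ 0 := by
    simp [Matrix.det_fin_two]
  let g : (Matrix (Fin 2) (Fin 2) ℂ)ˣ := Matrix.GeneralLinearGroup.mkOfDetNeZero _ hdet
  have hg : g.val = !![2, 0; 0, 1] := rfl
  have hi : g⁻¹.val = !![1/2, 0; 0, 1] := by
    have h1 : g.val * !![1/2, 0; 0, 1] = 1 := by
      rw [hg]; ext i j; fin_cases i <;> fin_cases j <;> simp
    calc g⁻¹.val = g⁻¹.val * (g.val * !![1/2, 0; 0, 1]) := by rw [h1, mul_one]
      _ = _ := by rw [← mul_assoc, Units.inv_mul, one_mul]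
  have hx : g.val * dg s t * g⁻¹.val = dg s t := by
    rw [hg, hi]; ext i j; fin_cases i <;> fin_cases j <;> simp [dg]; ring
  have key := bt_conj hB g (dg s t) i j p q
  rw [hx, hg, hi] at key
  simp only [Fin.sum_univ_two] at key
  fin_cases i <;> fin_cases j <;> fin_cases p <;> fin_cases q <;> simp at h key ⊢ <;>
    first
      | linear_combination (-1 : ℂ) * key
      | linear_combination (2 : ℂ) * key
      | linear_combination (-1 / 3 : ℂ) * key
      | linear_combination (4 / 3 : ℂ) * key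

lemma swap (hB : IsTraceBracket B) (s t : ℂ) :
    bt B (dg t s) 0 1 1 0 = bt B (dg s t) 1 0 0 1 := by
  have hdet : (!![0, 1; 1, 0] : Matrix (Fin 2) (Fin 2) ℂ).det ≠ 0 := by
    simp [Matrix.det_fin_two]
  let g : (Matrix (Fin 2) (Fin 2) ℂ)ˣ := Matrix.GeneralLinearGroup.mkOfDetNeZero _ hdet
  have hg : g.val = !![0, 1; 1, 0] := rfl
  have hi : g⁻¹.val = !![0, 1; 1, 0] := by
    have h1 : g.val * !![0, 1; 1, 0] = 1 := by
      rw [hg]; ext i j; fin_cases i <;> fin_cases j <;> simp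
    calc g⁻¹.val = g⁻¹.val * (g.val * !![0, 1; 1, 0]) := by rw [h1, mul_one]
      _ = _ := by rw [← mul_assoc, Units.inv_mul, one_mul]
  have hx : g.val * dg s t * g⁻¹.val = dg t s := by
    rw [hg, hi]; ext i j; fin_cases i <;> fin_cases j <;> simp [dg]
  have key := bt_conj hB g (dg s t) 0 1 1 0
  rw [hx, hg, hi] at key
  simp only [Fin.sum_univ_two] at key
  simpa using key

lemma diag_ev (s t : ℂ) (P : FreeAlgebra ℂ (Fin 1)) :
    (evalM 2 P).map (ex (dg s t)) =
      dg (FreeAlgebra.lift ℂ (fun _ : Fin 1 => s) P) (FreeAlgebra.lift ℂ (fun _ : Fin 1 => t) P) := by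
  induction P using FreeAlgebra.induction with
  | grade0 r =>
    simp only [evalM, AlgHom.commutes]
    ext1 i j
    simp only [Matrix.map_apply, Matrix.algebraMap_matrix_apply]
    fin_cases i <;> fin_cases j <;> simp [dg]
  | grade1 x =>
    obtain rfl : x = 0 := Subsingleton.elim _ _
    simp only [evalM, FreeAlgebra.lift_ι_apply]
    ext1 i j
    simp only [Matrix.map_apply, gen, Matrix.of_apply, ex_X]
  | mul a b ha hb =>
    have h1 : evalM 2 (a * b) = evalM 2 a * evalM 2 b := by simp [evalM]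
    have h2 : (evalM 2 a * evalM 2 b).map (ex (dg s t))
        = (evalM 2 a).map (ex (dg s t)) * (evalM 2 b).map (ex (dg s t)) := by
      ext1 i j; simp [Matrix.mul_apply]
    rw [h1, h2, ha, hb, map_mul, map_mul]
    ext i j
    fin_cases i <;> fin_cases j <;> simp [dg]
  | add a b ha hb =>
    have h1 : evalM 2 (a + b) = evalM 2 a + evalM 2 b := by simp [evalM]
    have h2 : (evalM 2 a + evalM 2 b).map (ex (dg s t))
        = (evalM 2 a).map (ex (dg s t)) + (evalM 2 b).map (ex (dg s t)) := by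
      ext1 i j; simp
    rw [h1, h2, ha, hb, map_add, map_add]
    ext i j
    fin_cases i <;> fin_cases j <;> simp [dg]

lemma trace_ev (s t : ℂ) (P : FreeAlgebra ℂ (Fin 1)) :
    ex (dg s t) (evalM 2 P).trace =
      FreeAlgebra.lift ℂ (fun _ : Fin 1 => s) P + FreeAlgebra.lift ℂ (fun _ : Fin 1 => t) P := by
  have h : ex (dg s t) (evalM 2 P).trace = ((evalM 2 P).map (ex (dg s t))).trace := by
    simp [Matrix.trace]
  rw [h, diag_ev]
  simp [Matrix.trace, dg]

lemma rad (hB : IsTraceBracket B) (s t : ℂ) (hst : s ≠ t) : bt B (dg s t) 0 0 1 1 = 0 := by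
  obtain ⟨P, hP⟩ := hB.trace (FreeAlgebra.ι ℂ 0) (FreeAlgebra.ι ℂ 0 * FreeAlgebra.ι ℂ 0)
  have e1 : (evalM 2 (FreeAlgebra.ι ℂ (0 : Fin 1))).trace
      = X (0, 0, 0) + X (0, 1, 1) := by
    simp [evalM, Matrix.trace, gen]
  have e2 : (evalM 2 (FreeAlgebra.ι ℂ (0 : Fin 1) * FreeAlgebra.ι ℂ 0)).trace
      = X (0, 0, 0) * X (0, 0, 0) + X (0, 0, 1) * X (0, 1, 0) +
        (X (0, 1, 0) * X (0, 0, 1) + X (0, 1, 1) * X (0, 1, 1)) := by
    simp [evalM, Matrix.trace, gen, Matrix.mul_apply]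
  rw [e1, e2] at hP
  have main : ∀ s t : ℂ, 2 * (t - s) * bt B (dg s t) 0 0 1 1 =
      FreeAlgebra.lift ℂ (fun _ : Fin 1 => s) P + FreeAlgebra.lift ℂ (fun _ : Fin 1 => t) P := by
    intro s t
    rw [← trace_ev, ← hP]
    simp only [hB.poisson.add_left, add_right hB.poisson, hB.poisson.leibniz, map_add, map_mul,
      ex_X]
    have a1 := bt_antisymm hB (dg s t) 0 0 0 0
    have a2 := bt_antisymm hB (dg s t) 1 1 1 1
    have a3 := bt_antisymm hB (dg s t) 1 1 0 0
    unfold bt at *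
    simp only [dg, Matrix.of_apply, Matrix.cons_val', Matrix.cons_val_zero, Matrix.cons_val_one,
      Matrix.cons_val_fin_one] at *
    linear_combination (- s) * a1 - t * a2 - 2 * s * a3
  have h0 : ∀ s : ℂ, FreeAlgebra.lift ℂ (fun _ : Fin 1 => s) P = 0 := by
    intro s
    have := main s s
    linear_combination (-1 / 2 : ℂ) * this
  have h1 := main s t
  rw [h0, h0, add_zero] at h1
  have h2 : 2 * (t - s) ≠ 0 := mul_ne_zero two_ne_zero (sub_ne_zero.2 hst.symm)
  exact (mul_eq_zero.1 h1).resolve_left h2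

/-- values at diagonal matrices of homogeneous polynomials -/
lemma homog_diag (k : ℕ) (f : Pol 1 2) (hf : IsHomogeneous f k) :
    ∃ c : ℕ → ℂ, ∀ s t : ℂ, ex (dg s t) f = ∑ a ∈ Finset.range (k + 1), c a * (s ^ a * t ^ (k - a)) := by
  classical
  have hmon : ∀ (v : (Fin 1 × Fin 2 × Fin 2) →₀ ℕ) (r : ℂ), v.degree = k →
      ∃ c : ℕ → ℂ, ∀ s t : ℂ, ex (dg s t) (monomial v r)
        = ∑ a ∈ Finset.range (k + 1), c a * (s ^ a * t ^ (k - a)) := by
    intro v r hv
    have hdeg : v (0, 0, 0) + v (0, 0, 1) + (v (0, 1, 0) + v (0, 1, 1)) = k := by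
      rw [← hv, Finsupp.degree_eq_sum]
      simp [Fintype.sum_prod_type, Fin.sum_univ_two]
    refine ⟨fun a => if a = v (0, 0, 0) then r * (0 ^ v (0, 0, 1) * 0 ^ v (0, 1, 0)) else 0, ?_⟩
    intro s t
    have he : ex (dg s t) (monomial v r) = r * ((s ^ v (0, 0, 0) * 0 ^ v (0, 0, 1)) *
        (0 ^ v (0, 1, 0) * t ^ v (0, 1, 1))) := by
      rw [ex, aeval_monomial, Finsupp.prod_fintype _ _ (fun _ => pow_zero _)]
      simp [Fintype.prod_prod_type, Fin.prod_univ_two, dg]
    rw [he, Finset.sum_eq_single (v (0, 0, 0))]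
    · simp only [if_true]
      by_cases h1 : v (0, 0, 1) = 0
      · by_cases h2 : v (0, 1, 0) = 0
        · have h3 : k - v (0, 0, 0) = v (0, 1, 1) := by omega
          rw [h1, h2, h3]; ring
        · rw [zero_pow h2]; ring
      · rw [zero_pow h1]; ring
    · intro b _ hb
      simp only [hb, if_false, zero_mul]
    · intro h
      exfalso
      apply h
      rw [Finset.mem_range]
      omega
  rw [f.as_sum]
  have : ∀ S : Finset ((Fin 1 × Fin 2 × Fin 2) →₀ ℕ), S ⊆ f.support →
      ∃ c : ℕ → ℂ, ∀ s t : ℂ, ex (dg s t) (∑ v ∈ S, monomial v (coeff v f))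
        = ∑ a ∈ Finset.range (k + 1), c a * (s ^ a * t ^ (k - a)) := by
    intro S
    induction S using Finset.induction_on with
    | empty => intro _; exact ⟨fun _ => 0, by simp⟩
    | insert v S hv ih =>
      intro hS
      obtain ⟨c, hc⟩ := ih ((Finset.subset_insert _ _).trans hS)
      have h1 : coeff v f ≠ 0 := by
        have := hS (Finset.mem_insert_self v S)
        simpa using this
      have h2 : v.degree = k := by
        have := hf h1
        rw [Finsupp.degree_eq_weight_one]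
        exact this
      obtain ⟨c', hc'⟩ := hmon v (coeff v f) h2
      refine ⟨fun a => c' a + c a, ?_⟩
      intro s t
      rw [Finset.sum_insert hv, map_add, hc, hc', ← Finset.sum_add_distrib]
      refine Finset.sum_congr rfl fun a _ => ?_
      ring
  exact this f.support (Finset.Subset.refl _)

lemma dg_pow (s t : ℂ) (n : ℕ) : dg s t ^ n = dg (s ^ n) (t ^ n) := by
  induction n with
  | zero => rw [pow_zero]; ext i j; fin_cases i <;> fin_cases j <;> simp [dg]
  | succ n ih =>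
    rw [pow_succ, ih]
    ext i j
    fin_cases i <;> fin_cases j <;> simp [dg, pow_succ]

lemma at_diag (hB : IsTraceBracket B) (k : ℕ) (c : ℕ → ℂ)
    (hc : ∀ s t : ℂ, bt B (dg s t) 0 1 1 0 = ∑ a ∈ Finset.range (k + 1), c a * (s ^ a * t ^ (k - a)))
    (s t : ℂ) (hst : s ≠ t) (i j p q : Fin 2) :
    bt B (dg s t) i j p q
      = ∑ a ∈ Finset.range (k + 1), c a * ((dg s t ^ a) i q * (dg s t ^ (k - a)) p j) := by
  have hanti : ∀ s t : ℂ, bt B (dg t s) 0 1 1 0 = - bt B (dg s t) 0 1 1 0 := by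
    intro s t
    rw [swap hB, bt_antisymm hB]
  have hdiag : ∀ s : ℂ, bt B (dg s s) 0 1 1 0 = 0 := by
    intro s
    have := hanti s s
    linear_combination (1 / 2 : ℂ) * this
  have hself : ∀ i j : Fin 2, bt B (dg s t) i j i j = 0 := by
    intro i j
    have := bt_antisymm hB (dg s t) i j i j
    linear_combination (1 / 2 : ℂ) * this
  simp only [dg_pow]
  by_cases h : i = q ∧ p = j
  · obtain ⟨rfl, rfl⟩ := h
    fin_cases i <;> fin_cases p
    · have h1 := hdiag s
      rw [hc] at h1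
      have h2 := hself 0 0
      simp only [dg, Matrix.of_apply, Matrix.cons_val', Matrix.cons_val_zero, Matrix.cons_val_one,
        Matrix.cons_val_fin_one, Fin.zero_eta, Fin.mk_one, Fin.isValue] at *
      rw [h1, h2]
    · have h1 := hc s t
      simp only [dg, Matrix.of_apply, Matrix.cons_val', Matrix.cons_val_zero, Matrix.cons_val_one,
        Matrix.cons_val_fin_one, Fin.zero_eta, Fin.mk_one, Fin.isValue] at *
      exact h1
    · have h1 := hc t s
      rw [swap hB] at h1
      simp only [dg, Matrix.of_apply, Matrix.cons_val', Matrix.cons_val_zero, Matrix.cons_val_one,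
        Matrix.cons_val_fin_one, Fin.zero_eta, Fin.mk_one, Fin.isValue] at *
      exact h1
    · have h1 := hdiag t
      rw [hc] at h1
      have h2 := hself 1 1
      simp only [dg, Matrix.of_apply, Matrix.cons_val', Matrix.cons_val_zero, Matrix.cons_val_one,
        Matrix.cons_val_fin_one, Fin.zero_eta, Fin.mk_one, Fin.isValue] at *
      rw [h1, h2]
  · have hR : ∑ a ∈ Finset.range (k + 1), c a * ((dg (s ^ a) (t ^ a)) i q
        * (dg (s ^ (k - a)) (t ^ (k - a))) p j) = 0 := by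
      apply Finset.sum_eq_zero
      intro a _
      have hd : ∀ (u v : ℂ) (i j : Fin 2), i ≠ j → dg u v i j = 0 := by
        intro u v i j hij
        fin_cases i <;> fin_cases j <;> simp [dg] at hij ⊢
      by_cases h1 : i = q
      · rw [hd _ _ p j (fun h2 => h ⟨h1, h2⟩), mul_zero, mul_zero]
      · rw [hd _ _ i q h1, zero_mul, mul_zero]
    rw [hR]
    by_cases h2 : i = j ∧ p = q
    · obtain ⟨rfl, rfl⟩ := h2
      have hip : i ≠ p := by
        intro h3
        exact h ⟨h3, h3.symm⟩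
      have hr := rad hB s t hst
      fin_cases i <;> fin_cases p
      · exact absurd rfl hip
      · exact hr
      · have := bt_antisymm hB (dg s t) 1 1 0 0
        rw [hr, neg_zero] at this
        exact this
      · exact absurd rfl hip
    · apply torus hB
      rintro (h3 | h3)
      · exact h2 h3
      · exact h h3

lemma at_conj (hB : IsTraceBracket B) (k : ℕ) (c : ℕ → ℂ)
    (hc : ∀ s t : ℂ, bt B (dg s t) 0 1 1 0 = ∑ a ∈ Finset.range (k + 1), c a * (s ^ a * t ^ (k - a)))
    (s t : ℂ) (hst : s ≠ t) (g : (Matrix (Fin 2) (Fin 2) ℂ)ˣ) (i j p q : Fin 2) :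
    bt B (g.val * dg s t * g⁻¹.val) i j p q
      = ∑ a ∈ Finset.range (k + 1), c a * (((g.val * dg s t * g⁻¹.val) ^ a) i q
        * ((g.val * dg s t * g⁻¹.val) ^ (k - a)) p j) := by
  have hpow : ∀ n : ℕ, (g.val * dg s t * g⁻¹.val) ^ n = g.val * dg s t ^ n * g⁻¹.val := by
    intro n
    induction n with
    | zero => simp
    | succ n ih =>
      rw [pow_succ, ih, pow_succ]
      calc g.val * dg s t ^ n * g⁻¹.val * (g.val * dg s t * g⁻¹.val)
          = g.val * dg s t ^ n * (g⁻¹.val * g.val) * dg s t * g⁻¹.val := by simp only [mul_assoc]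
        _ = _ := by rw [Units.inv_mul]; simp only [mul_assoc, one_mul]
  rw [bt_conj hB]
  simp only [at_diag hB k c hc s t hst, hpow, Finset.mul_sum]
  simp only [Finset.sum_comm (s := (Finset.univ : Finset (Fin 2))) (t := Finset.range (k + 1))]
  refine Finset.sum_congr rfl fun a _ => ?_
  simp only [Matrix.mul_apply, Fin.sum_univ_two]
  ring

lemma diagonalise (x : Matrix (Fin 2) (Fin 2) ℂ) (h01 : x 0 1 ≠ 0)
    (hd : (x 0 0 - x 1 1) ^ 2 + 4 * (x 0 1 * x 1 0) ≠ 0) :
    ∃ (g : (Matrix (Fin 2) (Fin 2) ℂ)ˣ) (s t : ℂ), s ≠ t ∧ x = g.val * dg s t * g⁻¹.val := by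
  obtain ⟨δ, hδ⟩ := IsAlgClosed.exists_eq_mul_self ((x 0 0 - x 1 1) ^ 2 + 4 * (x 0 1 * x 1 0))
  have hδ0 : δ ≠ 0 := by
    rintro rfl
    apply hd
    rw [hδ, zero_mul]
  set s : ℂ := (x 0 0 + x 1 1 + δ) / 2 with hs
  set t : ℂ := (x 0 0 + x 1 1 - δ) / 2 with ht
  have hst : s ≠ t := by
    intro h
    apply hδ0
    have : s - t = 0 := sub_eq_zero.2 h
    rw [hs, ht] at this
    linear_combination this
  have hdet : (!![x 0 1, x 0 1; s - x 0 0, t - x 0 0] : Matrix (Fin 2) (Fin 2) ℂ).det ≠ 0 := by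
    rw [Matrix.det_fin_two]
    have : (!![x 0 1, x 0 1; s - x 0 0, t - x 0 0] : Matrix (Fin 2) (Fin 2) ℂ) 0 0 *
        (!![x 0 1, x 0 1; s - x 0 0, t - x 0 0] : Matrix (Fin 2) (Fin 2) ℂ) 1 1 -
        (!![x 0 1, x 0 1; s - x 0 0, t - x 0 0] : Matrix (Fin 2) (Fin 2) ℂ) 0 1 *
        (!![x 0 1, x 0 1; s - x 0 0, t - x 0 0] : Matrix (Fin 2) (Fin 2) ℂ) 1 0
        = x 0 1 * (t - s) := by
      simp; ring
    rw [this]
    exact mul_ne_zero h01 (sub_ne_zero.2 hst.symm)
  refine ⟨Matrix.GeneralLinearGroup.mkOfDetNeZero _ hdet, s, t, hst, ?_⟩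
  set g : (Matrix (Fin 2) (Fin 2) ℂ)ˣ := Matrix.GeneralLinearGroup.mkOfDetNeZero _ hdet with hg
  have hgv : g.val = !![x 0 1, x 0 1; s - x 0 0, t - x 0 0] := rfl
  have hchs : s * s - s * (x 0 0 + x 1 1) + x 0 0 * x 1 1 - x 0 1 * x 1 0 = 0 := by
    rw [hs]; linear_combination (-1 / 4 : ℂ) * hδ
  have hcht : t * t - t * (x 0 0 + x 1 1) + x 0 0 * x 1 1 - x 0 1 * x 1 0 = 0 := by
    rw [ht]; linear_combination (-1 / 4 : ℂ) * hδ
  have hx : x * g.val = g.val * dg s t := by
    rw [hgv]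
    ext i j
    fin_cases i <;> fin_cases j <;> simp [dg, Matrix.mul_apply, Fin.sum_univ_two]
    · ring
    · ring
    · linear_combination (-1 : ℂ) * hchs
    · linear_combination (-1 : ℂ) * hcht
  rw [← hx, mul_assoc, Units.mul_inv, mul_one]

/-- For one `2 × 2` matrix every homogeneous trace Poisson bracket is of form (*). -/
theorem form_one_two (k : ℕ) (hB : IsTraceBracket B) (hk : IsHomogeneousBracket k B) :
    FormStar k B := by
  obtain ⟨c, hc⟩ := homog_diag k (B (X (0, 0, 1)) (X (0, 1, 0))) (hk _ _)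
  refine ⟨fun u _ _ _ => c u.length, ?_⟩
  intro α β i j p q
  obtain rfl : α = 0 := Subsingleton.elim _ _
  obtain rfl : β = 0 := Subsingleton.elim _ _
  have hword : ∀ l : List (Fin 1), (word l : Matrix _ _ (Pol 1 2)) = xx 2 ^ l.length := by
    intro l
    induction l with
    | nil => simp [word]
    | cons a l ih =>
      obtain rfl : a = 0 := Subsingleton.elim _ _
      have h : (word ((0 : Fin 1) :: l) : Matrix _ _ (Pol 1 2)) = xx 2 * word l := by
        simp [word]
      rw [h, ih, List.length_cons, pow_succ']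
  have hrhs : (∑ w : Fin k → Fin 1, ∑ a ∈ Finset.range (k + 1),
      (fun (u _ : List (Fin 1)) (_ _ : Fin 1) => c u.length) ((List.ofFn w).take a)
        ((List.ofFn w).drop a) 0 0 •
        ((word ((List.ofFn w).take a) : Matrix _ _ (Pol 1 2)) i q
          * word ((List.ofFn w).drop a) p j))
      = ∑ a ∈ Finset.range (k + 1), c a • (((xx 2 ^ a) i q) * ((xx 2 ^ (k - a)) p j)) := by
    rw [Fintype.sum_unique]
    refine Finset.sum_congr rfl fun a ha => ?_
    rw [Finset.mem_range] at ha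
    simp only [hword, List.length_take, List.length_drop, List.length_ofFn]
    rw [min_eq_left (by omega)]
  rw [hrhs]
  set R : Pol 1 2 := ∑ a ∈ Finset.range (k + 1), c a • (((xx 2 ^ a) i q) * ((xx 2 ^ (k - a)) p j))
    with hR
  have hexR : ∀ x : Matrix (Fin 2) (Fin 2) ℂ, ex x R =
      ∑ a ∈ Finset.range (k + 1), c a * ((x ^ a) i q * (x ^ (k - a)) p j) := by
    intro x
    have hp : ∀ (n : ℕ) (i j : Fin 2), ex x ((xx 2 ^ n) i j) = (x ^ n) i j := by
      intro n
      induction n with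
      | zero =>
        intro i j
        rw [pow_zero, pow_zero, Matrix.one_apply, Matrix.one_apply]
        split_ifs <;> simp
      | succ n ih =>
        intro i j
        rw [pow_succ, pow_succ, Matrix.mul_apply, Matrix.mul_apply, map_sum]
        refine Finset.sum_congr rfl fun l _ => ?_
        rw [map_mul, ih]
        congr 1
        exact ex_X x 0 l j
    rw [hR, map_sum]
    refine Finset.sum_congr rfl fun a _ => ?_
    rw [map_smul, map_mul, hp, hp, smul_eq_mul]
  have hgood : ∀ x : Matrix (Fin 2) (Fin 2) ℂ, x 0 1 ≠ 0 →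
      (x 0 0 - x 1 1) ^ 2 + 4 * (x 0 1 * x 1 0) ≠ 0 →
      ex x (B (X (0, i, j)) (X (0, p, q))) = ex x R := by
    intro x h1 h2
    obtain ⟨g, s, t, hst, rfl⟩ := diagonalise x h1 h2
    rw [hexR]
    exact at_conj hB k c hc s t hst g i j p q
  have hprod : (B (X (0, i, j)) (X (0, p, q)) - R) * (X (0, 0, 1) *
      ((X (0, 0, 0) - X (0, 1, 1)) ^ 2 + 4 * (X (0, 0, 1) * X (0, 1, 0)))) = (0 : Pol 1 2) := by
    apply MvPolynomial.funext
    intro y
    set x : Matrix (Fin 2) (Fin 2) ℂ := Matrix.of fun i j => y (0, i, j) with hx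
    have hy : ∀ f : Pol 1 2, eval y f = ex x f := by
      intro f
      induction f using MvPolynomial.induction_on with
      | C a => simp [ex]
      | add f g hf hg => rw [map_add, map_add, hf, hg]
      | mul_X f b hf =>
        obtain ⟨b0, u, v⟩ := b
        obtain rfl : b0 = 0 := Subsingleton.elim _ _
        rw [map_mul, map_mul, hf, eval_X, ex_X]
        rfl
    rw [hy, hy, map_mul, map_mul, map_sub]
    by_cases h1 : x 0 1 = 0
    · rw [ex_X, h1]; simp
    · by_cases h2 : (x 0 0 - x 1 1) ^ 2 + 4 * (x 0 1 * x 1 0) = 0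
      · have : ex x ((X (0, 0, 0) - X (0, 1, 1)) ^ 2 + 4 * (X (0, 0, 1) * X (0, 1, 0))) = 0 := by
          simp only [map_add, map_pow, map_sub, map_mul, ex_X, map_ofNat]
          exact h2
        rw [this]; simp
      · rw [hgood x h1 h2]; simp
  have hne : (X (0, 0, 1) * ((X (0, 0, 0) - X (0, 1, 1)) ^ 2 + 4 * (X (0, 0, 1) * X (0, 1, 0)))
      : Pol 1 2) ≠ 0 := by
    intro h
    have := congrArg (ex !![1, 1; 0, 0]) h
    simp only [map_add, map_pow, map_sub, map_mul, ex_X, map_ofNat] at this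
    simp at this
  exact sub_eq_zero.1 ((mul_eq_zero.1 hprod).resolve_right hne)

end Pool.Agent.Y301.TB.OneTwo
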