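import Pool.Agent.Results.MP_9bafdc_mp.NotStar

set_option autoImplicit false

open MvPolynomial
open Pool.Agent.Results.MP_9bafdc_mp.NotStar (Pol gen word FormStar app app_mul T V adGen)

namespace Pool.Agent.Y301.TB.Two2

variable {N m : ℕ}

/-- evaluation at the base point `x_0 = 1`, all other matrices zero -/
noncomputable def e0 (N m : ℕ) : Pol (N + 2) (m + 2) →ₐ[ℂ] ℂ :=
  aeval fun a => if a.1 = 0 ∧ a.2.1 = a.2.2 then 1 else 0

/-- all letters zero -/
noncomputable def zz : List (Fin (N + 2)) → ℂ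
  | [] => 1
  | x :: l => if x = 0 then zz l else 0

/-- exactly one letter `1`, all others zero -/
noncomputable def oo : List (Fin (N + 2)) → ℂ
  | [] => 0
  | x :: l => if x = 0 then oo l else if x = 1 then zz l else 0

/-- length, if all letters are zero -/
noncomputable def nn : List (Fin (N + 2)) → ℂ
  | [] => 0
  | x :: l => if x = 0 then zz l + nn l else 0

/-- number of zeros before the one -/
noncomputable def al : List (Fin (N + 2)) → ℂ
  | [] => 0
  | x :: l => if x = 0 then oo l + al l else 0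

/-- number of zeros after the one -/
noncomputable def be : List (Fin (N + 2)) → ℂ
  | [] => 0
  | x :: l => if x = 0 then be l else if x = 1 then nn l else 0

/-- evaluated matrix -/
noncomputable def ee (A : Matrix (Fin (m + 2)) (Fin (m + 2)) (Pol (N + 2) (m + 2))) :
    Matrix (Fin (m + 2)) (Fin (m + 2)) ℂ := A.map (e0 N m)

lemma ee_mul (A B : Matrix (Fin (m + 2)) (Fin (m + 2)) (Pol (N + 2) (m + 2))) :
    ee (A * B) = ee A * ee B := by
  ext1 i j; simp [ee, Matrix.mul_apply]

lemma ee_add (A B : Matrix (Fin (m + 2)) (Fin (m + 2)) (Pol (N + 2) (m + 2))) :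
    ee (A + B) = ee A + ee B := by
  ext1 i j; simp [ee]

lemma ee_gen (x : Fin (N + 2)) :
    ee (gen x : Matrix (Fin (m + 2)) (Fin (m + 2)) (Pol (N + 2) (m + 2))) = if x = 0 then 1 else 0 := by
  ext1 i j
  by_cases hx : x = 0
  · simp [ee, gen, e0, hx, Matrix.one_apply]
  · simp [ee, gen, e0, hx]

/-- derivative in the `(p, q)` entry of `x_a` -/
noncomputable def DD (a : Fin (N + 2)) (p q : Fin (m + 2)) :
    Derivation ℂ (Pol (N + 2) (m + 2)) (Pol (N + 2) (m + 2)) := pderiv (a, p, q)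

lemma app_DD_gen (a : Fin (N + 2)) (p q : Fin (m + 2)) (x : Fin (N + 2)) :
    app (DD a p q) (gen x : Matrix (Fin (m + 2)) (Fin (m + 2)) (Pol (N + 2) (m + 2)))
      = if x = a then Matrix.single p q 1 else 0 := by
  ext1 i j
  simp only [app, gen, DD, Matrix.map_apply, Matrix.of_apply]
  by_cases hx : x = a
  · subst hx
    rw [if_pos rfl, Matrix.single_apply]
    by_cases h : p = i ∧ q = j
    · obtain ⟨rfl, rfl⟩ := h
      simp
    · rw [if_neg h, pderiv_X_of_ne]
      intro h'
      apply h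
      simp only [Prod.mk.injEq, true_and] at h'
      exact ⟨h'.1.symm, h'.2.symm⟩
  · rw [if_neg hx, pderiv_X_of_ne]
    · simp
    · intro h'
      apply hx
      simp only [Prod.mk.injEq] at h'
      exact h'.1

lemma app_single (D : Derivation ℂ (Pol (N + 2) (m + 2)) (Pol (N + 2) (m + 2)))
    (p q : Fin (m + 2)) :
    app D (Matrix.single p q 1 : Matrix (Fin (m + 2)) (Fin (m + 2)) (Pol (N + 2) (m + 2))) = 0 := by
  ext1 i j
  simp only [app, Matrix.map_apply, Matrix.single_apply]
  split_ifs <;> simp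

lemma app_zero (D : Derivation ℂ (Pol (N + 2) (m + 2)) (Pol (N + 2) (m + 2))) :
    app D (0 : Matrix (Fin (m + 2)) (Fin (m + 2)) (Pol (N + 2) (m + 2))) = 0 := by
  ext1 i j
  simp [app]

lemma app_one' (D : Derivation ℂ (Pol (N + 2) (m + 2)) (Pol (N + 2) (m + 2))) :
    app D (1 : Matrix (Fin (m + 2)) (Fin (m + 2)) (Pol (N + 2) (m + 2))) = 0 := by
  ext1 i j
  simp only [app, Matrix.map_apply, Matrix.one_apply, Matrix.zero_apply]
  split_ifs <;> simp

lemma ee_zero : ee (0 : Matrix (Fin (m + 2)) (Fin (m + 2)) (Pol (N + 2) (m + 2))) = 0 := by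
  ext1 i j; simp [ee]

lemma ee_one : ee (1 : Matrix (Fin (m + 2)) (Fin (m + 2)) (Pol (N + 2) (m + 2))) = 1 := by
  ext1 i j; simp only [ee, Matrix.map_apply, Matrix.one_apply]; split_ifs <;> simp

lemma ee_single (p q : Fin (m + 2)) :
    ee (Matrix.single p q 1 : Matrix (Fin (m + 2)) (Fin (m + 2)) (Pol (N + 2) (m + 2)))
      = Matrix.single p q 1 := by
  ext1 i j; simp only [ee, Matrix.map_apply, Matrix.single_apply]; split_ifs <;> simp

lemma word_cons (x : Fin (N + 2)) (l : List (Fin (N + 2))) :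
    (word (x :: l) : Matrix (Fin (m + 2)) (Fin (m + 2)) (Pol (N + 2) (m + 2)))
      = gen x * word l := by simp [word]

lemma words (p q : Fin (m + 2)) (l : List (Fin (N + 2))) :
    ee (word l : Matrix (Fin (m + 2)) (Fin (m + 2)) (Pol (N + 2) (m + 2))) = zz l • 1 ∧
    ee (app (DD 0 p p) (word l : Matrix (Fin (m + 2)) (Fin (m + 2)) (Pol (N + 2) (m + 2))))
      = nn l • Matrix.single p p 1 ∧
    ee (app (DD 1 0 q) (word l : Matrix (Fin (m + 2)) (Fin (m + 2)) (Pol (N + 2) (m + 2))))
      = oo l • Matrix.single 0 q 1 ∧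
    ee (app (DD 0 p p) (app (DD 1 0 q)
      (word l : Matrix (Fin (m + 2)) (Fin (m + 2)) (Pol (N + 2) (m + 2)))))
      = al l • (Matrix.single p p 1 * Matrix.single 0 q 1)
        + be l • (Matrix.single 0 q 1 * Matrix.single p p 1) := by
  induction l with
  | nil =>
    have h : (word [] : Matrix (Fin (m + 2)) (Fin (m + 2)) (Pol (N + 2) (m + 2))) = 1 := by
      simp [word]
    rw [h]
    simp only [app_one', app_zero, ee_zero, ee_one, zz, nn, oo, al, be, one_smul, zero_smul,
      add_zero, and_self]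
  | cons x l ih =>
    obtain ⟨h1, h2, h3, h4⟩ := ih
    rw [word_cons]
    simp only [app_mul, Pool.Agent.Results.MP_9bafdc_mp.NotStar.app_add, ee_add]
    simp only [ee_mul, h1, h2, h3, h4, ee_gen, app_DD_gen]
    have h01 : (0 : Fin (N + 2)) ≠ 1 := by simp
    by_cases hx0 : x = 0
    · subst hx0
      simp only [zz, nn, oo, al, be, if_true, if_neg h01, app_zero, ee_zero, ee_single, zero_mul,
        one_mul, zero_add, add_zero, mul_smul_comm, mul_one, true_and, smul_zero, add_smul]
      abel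
    · by_cases hx1 : x = 1
      · subst hx1
        simp only [zz, nn, oo, al, be, if_true, if_neg (Ne.symm h01), app_single, ee_zero,
          ee_single, zero_mul, one_mul, zero_add, add_zero, mul_smul_comm, mul_one, zero_smul,
          smul_zero, and_self]
      · simp only [zz, nn, oo, al, be, if_neg hx0, if_neg hx1, app_zero, ee_zero, zero_mul,
          zero_add, add_zero, zero_smul, smul_zero, and_self]

/-- second order functional at the base point -/
noncomputable def L (p q : Fin (m + 2)) : Pol (N + 2) (m + 2) →ₗ[ℂ] ℂ :=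
  (e0 N m).toLinearMap ∘ₗ (DD 0 p p).toLinearMap ∘ₗ (DD 1 0 q).toLinearMap

lemma L_apply (p q : Fin (m + 2)) (f : Pol (N + 2) (m + 2)) :
    L p q f = e0 N m (DD 0 p p (DD 1 0 q f)) := rfl

lemma L_mul (p q : Fin (m + 2)) (f g : Pol (N + 2) (m + 2)) :
    L p q (f * g) = e0 N m f * e0 N m (DD 0 p p (DD 1 0 q g))
      + e0 N m (DD 0 p p f) * e0 N m (DD 1 0 q g)
      + e0 N m (DD 0 p p g) * e0 N m (DD 1 0 q f)
      + e0 N m g * e0 N m (DD 0 p p (DD 1 0 q f)) := by
  rw [L_apply, Derivation.leibniz, map_add, smul_eq_mul, smul_eq_mul, Derivation.leibniz,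
    Derivation.leibniz]
  simp only [smul_eq_mul, map_add, map_mul]
  ring

lemma w0 (l : List (Fin (N + 2))) (i j : Fin (m + 2)) :
    e0 N m ((word l : Matrix _ _ (Pol (N + 2) (m + 2))) i j) = zz l * if i = j then 1 else 0 := by
  have := congrFun (congrFun (words (m := m) 0 0 l).1 i) j
  simpa [ee, Matrix.one_apply] using this

lemma w1 (p : Fin (m + 2)) (l : List (Fin (N + 2))) (i j : Fin (m + 2)) :
    e0 N m (DD 0 p p ((word l : Matrix _ _ (Pol (N + 2) (m + 2))) i j))
      = nn l * if p = i ∧ p = j then 1 else 0 := by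
  have := congrFun (congrFun (words (m := m) p 0 l).2.1 i) j
  simpa [ee, app, Matrix.single_apply] using this

lemma w2 (q : Fin (m + 2)) (l : List (Fin (N + 2))) (i j : Fin (m + 2)) :
    e0 N m (DD 1 0 q ((word l : Matrix _ _ (Pol (N + 2) (m + 2))) i j))
      = oo l * if 0 = i ∧ q = j then 1 else 0 := by
  have := congrFun (congrFun (words (m := m) 0 q l).2.2.1 i) j
  simpa [ee, app, Matrix.single_apply] using this

lemma w3 (p q : Fin (m + 2)) (l : List (Fin (N + 2))) (i j : Fin (m + 2)) :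
    e0 N m (DD 0 p p (DD 1 0 q ((word l : Matrix _ _ (Pol (N + 2) (m + 2))) i j)))
      = al l * ((Matrix.single p p 1 * Matrix.single 0 q 1 : Matrix (Fin (m + 2)) (Fin (m + 2)) ℂ) i j)
        + be l * ((Matrix.single 0 q 1 * Matrix.single p p 1 : Matrix (Fin (m + 2)) (Fin (m + 2)) ℂ) i j) := by
  have := congrFun (congrFun (words (m := m) p q l).2.2.2 i) j
  simpa [ee, app] using this

lemma one_ne_zero2 : (1 : Fin (m + 2)) ≠ 0 := by simp

lemma L1 (u v : List (Fin (N + 2))) :
    L 0 1 ((word u : Matrix _ _ (Pol (N + 2) (m + 2))) 0 1 * word v 1 1) = al u * zz v := by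
  have h : (0 : Fin (m + 2)) ≠ 1 := Ne.symm one_ne_zero2
  rw [L_mul, w0, w0, w1, w1, w3 0 1 u]
  simp [h, Matrix.single_mul_single_of_ne, Matrix.single_apply]
  ring

lemma L2 (u v : List (Fin (N + 2))) :
    L 1 1 ((word u : Matrix _ _ (Pol (N + 2) (m + 2))) 0 1 * word v 0 0) = be u * zz v := by
  have h : (0 : Fin (m + 2)) ≠ 1 := Ne.symm one_ne_zero2
  rw [L_mul, w0, w0, w1, w1, w3 1 1 u]
  simp [h, Matrix.single_mul_single_of_ne, Matrix.single_apply]
  ring

lemma L3 (u v : List (Fin (N + 2))) :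
    L 0 0 ((word u : Matrix _ _ (Pol (N + 2) (m + 2))) 0 0 * word v 1 1)
      = (al u + be u) * zz v := by
  have h : (0 : Fin (m + 2)) ≠ 1 := Ne.symm one_ne_zero2
  rw [L_mul, w0, w0, w1, w1, w2, w3 0 0 u, w3 0 0 v]
  simp [h, Matrix.single_apply]
  ring

lemma zz_rep (k : ℕ) : zz (List.replicate k (0 : Fin (N + 2))) = 1 := by
  induction k with
  | zero => simp [zz]
  | succ k ih => rw [List.replicate_succ]; simp [zz, ih]

lemma nn_rep (k : ℕ) : nn (List.replicate k (0 : Fin (N + 2))) = k := by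
  induction k with
  | zero => simp [nn]
  | succ k ih => rw [List.replicate_succ]; simp [nn, ih, zz_rep]; ring

lemma oo_rep (k : ℕ) : oo (List.replicate k (0 : Fin (N + 2)) ++ [1]) = 1 := by
  induction k with
  | zero => simp [oo, zz]
  | succ k ih => rw [List.replicate_succ, List.cons_append]; simp [oo, ih]

lemma al_rep (k : ℕ) : al (List.replicate k (0 : Fin (N + 2)) ++ [1]) = k := by
  induction k with
  | zero => simp [al]
  | succ k ih => rw [List.replicate_succ, List.cons_append]; simp [al, ih, oo_rep]; ring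

lemma be_rep (k : ℕ) : be (List.replicate k (0 : Fin (N + 2)) ++ [1]) = 0 := by
  induction k with
  | zero => simp [be, nn]
  | succ k ih => rw [List.replicate_succ, List.cons_append]; simp [be, ih]

lemma adGen_word (k : ℕ) : (adGen k 1 : Matrix (Fin (m + 2)) (Fin (m + 2)) (Pol (N + 2) (m + 2)))
    = word (List.replicate k 0 ++ [1]) - word (1 :: List.replicate k 0) := by
  have h : (word (List.replicate k 0) : Matrix (Fin (m + 2)) (Fin (m + 2)) (Pol (N + 2) (m + 2)))
      = gen 0 ^ k := by simp [word]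
  have h2 : (word (List.replicate k 0 ++ [1]) :
      Matrix (Fin (m + 2)) (Fin (m + 2)) (Pol (N + 2) (m + 2))) = gen 0 ^ k * gen 1 := by
    simp [word]
  rw [adGen, word_cons, h, h2]

lemma L_word (p q : Fin (m + 2)) (l : List (Fin (N + 2))) (i j : Fin (m + 2)) :
    L p q ((word l : Matrix _ _ (Pol (N + 2) (m + 2))) i j)
      = al l * ((Matrix.single p p 1 * Matrix.single 0 q 1 : Matrix (Fin (m + 2)) (Fin (m + 2)) ℂ) i j)
        + be l * ((Matrix.single 0 q 1 * Matrix.single p p 1 : Matrix (Fin (m + 2)) (Fin (m + 2)) ℂ) i j) := by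
  rw [L_apply, w3]

lemma not_star2 (k : ℕ) :
    ¬ FormStar (k + 2) (Pool.Agent.Results.MP_9bafdc_mp.NotStar.br (k + 1) :
      Pol (N + 2) (m + 2) → _ → _) := by
  rintro ⟨c, hc⟩
  have h01 : (0 : Fin (m + 2)) ≠ 1 := Ne.symm one_ne_zero2
  have hT00 : T (X (1, 0, 0) : Pol (N + 2) (m + 2)) = 1 := by simp [T]
  have hT11 : T (X (1, 1, 1) : Pol (N + 2) (m + 2)) = 1 := by simp [T]
  have hT01 : T (X (1, 0, 1) : Pol (N + 2) (m + 2)) = 0 := by simp [T, h01]
  have hT10 : T (X (1, 1, 0) : Pol (N + 2) (m + 2)) = 0 := by simp [T, Ne.symm h01]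
  have hV : V (k + 1) (X (1, 0, 1) : Pol (N + 2) (m + 2)) = adGen (k + 1) 1 0 1 := by simp [V]
  have key : ∀ p q i j i' j', ∀ φ : List (Fin (N + 2)) → List (Fin (N + 2)) → ℂ,
      (∀ u v, L p q ((word u : Matrix _ _ (Pol (N + 2) (m + 2))) i j' * word v i' j) = φ u v) →
      L p q (Pool.Agent.Results.MP_9bafdc_mp.NotStar.br (k + 1) (X (1, i, j)) (X (1, i', j')) :
        Pol (N + 2) (m + 2))
      = ∑ w : Fin (k + 2) → Fin (N + 2), ∑ a ∈ Finset.range (k + 2 + 1),
      c ((List.ofFn w).take a) ((List.ofFn w).drop a) 1 1 *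
        φ ((List.ofFn w).take a) ((List.ofFn w).drop a) := by
    intro p q i j i' j' φ hφ
    rw [hc 1 1 i j i' j', map_sum]
    refine Finset.sum_congr rfl fun w _ => ?_
    rw [map_sum]
    refine Finset.sum_congr rfl fun a _ => ?_
    rw [map_smul, hφ, smul_eq_mul]
  have k1 := key 0 1 0 1 1 1 _ L1
  have k2 := key 1 1 0 0 0 1 _ L2
  have k3 := key 0 0 0 1 1 0 _ L3
  have hs : L 0 0 (Pool.Agent.Results.MP_9bafdc_mp.NotStar.br (k + 1) (X (1, 0, 1))
        (X (1, 1, 0)) : Pol (N + 2) (m + 2))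
      = L 0 1 (Pool.Agent.Results.MP_9bafdc_mp.NotStar.br (k + 1) (X (1, 0, 1))
        (X (1, 1, 1)) : Pol (N + 2) (m + 2))
      + L 1 1 (Pool.Agent.Results.MP_9bafdc_mp.NotStar.br (k + 1) (X (1, 0, 0))
        (X (1, 0, 1)) : Pol (N + 2) (m + 2)) := by
    rw [k1, k2, k3, ← Finset.sum_add_distrib]
    refine Finset.sum_congr rfl fun w _ => ?_
    rw [← Finset.sum_add_distrib]
    refine Finset.sum_congr rfl fun a _ => ?_
    ring
  simp only [Pool.Agent.Results.MP_9bafdc_mp.NotStar.br, hT00, hT11, hT01, hT10, hV, zero_mul,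
    mul_zero, mul_one, one_mul, zero_sub, sub_zero, map_zero, map_neg] at hs
  rw [adGen_word, Matrix.sub_apply, map_sub, map_sub, L_word, L_word, L_word, L_word, al_rep,
    be_rep] at hs
  have ha : al (1 :: List.replicate (k + 1) (0 : Fin (N + 2))) = 0 := by simp [al]
  have hb : be (1 :: List.replicate (k + 1) (0 : Fin (N + 2))) = (k + 1 : ℕ) := by
    simp only [be, nn_rep]
    simp
  rw [ha, hb] at hs
  simp [h01, Matrix.single_mul_single_of_ne, Matrix.single_apply] at hs
  have h2 : ((2 * (k + 1) : ℕ) : ℂ) = 0 := by push_cast; linear_combination hs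
  have h3 : 2 * (k + 1) = 0 := by exact_mod_cast h2
  omega

end Pool.Agent.Y301.TB.Two2
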