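import Pool.Agent.Y301.TB.Two

set_option autoImplicit false

open MvPolynomial
open Pool.Agent.Results.MP_9bafdc_mp.NotStar (Pol gen evalM conjGen conj IsPoisson IsTraceBracket
  IsHomogeneousBracket word FormStar)

namespace Pool.Agent.Y301.TB

section Evaluate

variable {m : ℕ}

/-- the diagonal entries of the test matrix -/
def dd (s : ℂ) (i : Fin (m + 3)) : ℂ := if i = 0 then 1 else if i = 2 then s else 0

/-- evaluation at the diagonal test matrix -/
noncomputable def ev (m : ℕ) (s : ℂ) : Pol 1 (m + 3) →ₐ[ℂ] ℂ :=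
  aeval fun a => if a.2.1 = a.2.2 then dd s a.2.1 else 0

lemma ev_gen (s : ℂ) : (xx (m + 3)).map (ev m s) = Matrix.diagonal (dd s) := by
  ext1 i j
  simp only [Matrix.map_apply, gen, Matrix.of_apply, ev, aeval_X, Matrix.diagonal_apply]

lemma ev_word (s : ℂ) (w : List (Fin 1)) :
    (word w : Matrix _ _ (Pol 1 (m + 3))).map (ev m s)
      = Matrix.diagonal (fun i => dd s i ^ w.length) := by
  induction w with
  | nil =>
    ext1 i j
    simp only [word, List.map_nil, List.prod_nil, Matrix.map_apply, Matrix.one_apply,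
      Matrix.diagonal_apply, List.length_nil, pow_zero]
    split_ifs <;> simp
  | cons a w ih =>
    obtain rfl : a = 0 := Subsingleton.elim _ _
    have h : (word ((0 : Fin 1) :: w) : Matrix _ _ (Pol 1 (m + 3))) = xx (m + 3) * word w := by
      simp [word]
    have h2 : (xx (m + 3) * word w).map (ev m s) = (xx (m + 3)).map (ev m s) * (word w).map (ev m s) := by
      ext1 i j; simp [Matrix.mul_apply]
    rw [h, h2, ih, ev_gen, Matrix.diagonal_mul_diagonal]
    congr 1
    funext i
    rw [List.length_cons, pow_succ']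

lemma ev_word_apply (s : ℂ) (w : List (Fin 1)) (i : Fin (m + 3)) :
    ev m s ((word w : Matrix _ _ (Pol 1 (m + 3))) i i) = dd s i ^ w.length := by
  have := congrFun (congrFun (ev_word (m := m) s w) i) i
  simpa using this

lemma two_ne_zero'' : (2 : Fin (m + 3)) ≠ 0 := by
  intro h
  have := congrArg Fin.val h
  simp [Nat.mod_eq_of_lt (show 2 < m + 3 by omega)] at this

lemma two_ne_one'' : (2 : Fin (m + 3)) ≠ 1 := by
  intro h
  have := congrArg Fin.val h
  simp [Nat.mod_eq_of_lt (show 2 < m + 3 by omega)] at this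

lemma ev_trace (s : ℂ) : ev m s (xx (m + 3)).trace = 1 + s := by
  have h : ev m s (xx (m + 3)).trace = ∑ i : Fin (m + 3), dd s i := by
    simp only [Matrix.trace, Matrix.diag_apply, map_sum]
    refine Finset.sum_congr rfl fun i _ => ?_
    simp [gen, ev]
  rw [h]
  have h2 : ∀ i : Fin (m + 3), dd s i
      = (if i = 0 then (1 : ℂ) else 0) + (if i = 2 then s else 0) := by
    intro i
    unfold dd
    by_cases h0 : i = 0
    · subst h0
      simp [Ne.symm two_ne_zero'']
    · simp [h0]
  rw [Finset.sum_congr rfl fun i _ => h2 i, Finset.sum_add_distrib, Finset.sum_ite_eq',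
    Finset.sum_ite_eq']
  simp

lemma not_star (k : ℕ) : ¬ FormStar (k + 2) (br (k + 1) : Pol 1 (m + 3) → _ → _) := by
  rintro ⟨c, hc⟩
  have h := hc 0 0 0 1 1 0
  have hL : ∀ s : ℂ, ev m s (br (k + 1) (X (0, 0, 1)) (X (0, 1, 0)) : Pol 1 (m + 3))
      = (1 + s) ^ (k + 1) := by
    intro s
    rw [br_XX, map_mul, map_pow, ev_trace, map_sub]
    have e1 : ev m s (dl 1 1 * (X (0, 0, 0) : Pol 1 (m + 3))) = 1 := by
      simp [dl, ev, dd]
    have e2 : ev m s (dl 0 0 * (X (0, 1, 1) : Pol 1 (m + 3))) = 0 := by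
      simp [dl, ev, dd, Ne.symm two_ne_one'']
    rw [e1, e2, sub_zero, mul_one]
  have hR : ∀ s : ℂ, ev m s (∑ w : Fin (k + 2) → Fin 1, ∑ a ∈ Finset.range (k + 2 + 1),
      c ((List.ofFn w).take a) ((List.ofFn w).drop a) 0 0 •
        ((word ((List.ofFn w).take a) : Matrix _ _ (Pol 1 (m + 3))) 0 0
          * word ((List.ofFn w).drop a) 1 1)) =
      ∑ w : Fin (k + 2) → Fin 1, ∑ a ∈ Finset.range (k + 2 + 1),
      c ((List.ofFn w).take a) ((List.ofFn w).drop a) 0 0 •
        ((1 : ℂ) ^ ((List.ofFn w).take a).length * (0 : ℂ) ^ ((List.ofFn w).drop a).length) := by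
    intro s
    rw [map_sum]
    refine Finset.sum_congr rfl fun w _ => ?_
    rw [map_sum]
    refine Finset.sum_congr rfl fun a _ => ?_
    rw [map_smul, map_mul, ev_word_apply, ev_word_apply]
    have d0 : dd s (0 : Fin (m + 3)) = 1 := by simp [dd]
    have d1 : dd s (1 : Fin (m + 3)) = 0 := by simp [dd, Ne.symm two_ne_one'']
    rw [d0, d1]
  have h0 : (1 + (0:ℂ)) ^ (k + 1) = (1 + (1:ℂ)) ^ (k + 1) := by
    rw [← hL 0, ← hL 1, h, hR 0, hR 1]
  rw [add_zero, one_pow, show (1 + (1:ℂ)) = 2 by norm_num] at h0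
  have h1 : ((2 ^ (k + 1) : ℕ) : ℂ) = ((1 : ℕ) : ℂ) := by push_cast; exact h0.symm
  have h2 : 2 ^ (k + 1) = 1 := by exact_mod_cast h1
  have h3 : 1 < 2 ^ (k + 1) := Nat.one_lt_two_pow (by omega)
  omega

end Evaluate

/-! ### Matrices of size one -/

section SizeOne

variable {N : ℕ}

lemma word_cons_one (a : Fin N) (l : List (Fin N)) :
    (word (a :: l) : Matrix _ _ (Pol N 1)) 0 0 = X (a, 0, 0) * word l 0 0 := by
  have h : (word (a :: l) : Matrix _ _ (Pol N 1)) = gen a * word l := by simp [word]
  rw [h, Matrix.mul_apply]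
  simp [gen]

lemma exists_word (k : ℕ) : ∀ s : (Fin N × Fin 1 × Fin 1) →₀ ℕ, s.degree = k →
    ∃ l : List (Fin N), l.length = k ∧ (word l : Matrix _ _ (Pol N 1)) 0 0 = monomial s 1 := by
  induction k with
  | zero =>
    intro s hs
    have : s = 0 := (Finsupp.degree_eq_zero_iff s).1 hs
    subst this
    exact ⟨[], rfl, by simp [word]⟩
  | succ k ih =>
    intro s hs
    have hne : s ≠ 0 := by
      rintro rfl
      simp at hs
    obtain ⟨a, ha⟩ := Finsupp.ne_iff.1 hne
    have ha' : 1 ≤ s a := Nat.one_le_iff_ne_zero.2 ha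
    have hle : Finsupp.single a 1 ≤ s := by
      intro b
      by_cases hb : b = a
      · subst hb; simpa using ha'
      · simp [Finsupp.single_eq_of_ne hb]
    obtain ⟨t, ht⟩ := exists_add_of_le hle
    have hdeg : t.degree = k := by
      have := congrArg Finsupp.degree ht
      rw [hs, map_add, Finsupp.degree_single] at this
      omega
    obtain ⟨l, hl, hw⟩ := ih t hdeg
    obtain ⟨a0, i, j⟩ := a
    obtain rfl : i = 0 := Subsingleton.elim _ _
    obtain rfl : j = 0 := Subsingleton.elim _ _
    refine ⟨a0 :: l, by simp [hl], ?_⟩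
    rw [word_cons_one, hw, ht, X, monomial_mul, one_mul]

/-- representable polynomials -/
def Rep (k : ℕ) (p : Pol N 1) : Prop :=
  ∃ κ : List (Fin N) → ℂ, p = ∑ w : Fin k → Fin N, κ (List.ofFn w) •
    (word (List.ofFn w) : Matrix _ _ (Pol N 1)) 0 0

lemma rep_zero (k : ℕ) : Rep k (0 : Pol N 1) := ⟨fun _ => 0, by simp⟩

lemma rep_add (k : ℕ) {p q : Pol N 1} (hp : Rep k p) (hq : Rep k q) : Rep k (p + q) := by
  obtain ⟨κ, h1⟩ := hp
  obtain ⟨κ', h2⟩ := hq
  refine ⟨fun l => κ l + κ' l, ?_⟩
  rw [h1, h2, ← Finset.sum_add_distrib]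
  refine Finset.sum_congr rfl fun w _ => ?_
  rw [add_smul]

lemma rep_monomial (s : (Fin N × Fin 1 × Fin 1) →₀ ℕ) (a : ℂ) :
    Rep s.degree (monomial s a : Pol N 1) := by
  classical
  obtain ⟨l, hl, hw⟩ := exists_word s.degree s rfl
  rw [← hl]
  refine ⟨fun l' => if l' = l then a else 0, ?_⟩
  rw [Finset.sum_eq_single l.get]
  · rw [List.ofFn_get, hw]
    simp only [if_true]
    rw [smul_monomial, smul_eq_mul, mul_one]
  · intro w _ hne
    have h0 : List.ofFn w ≠ l := by
      intro h
      apply hne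
      apply List.ofFn_injective
      rw [h, List.ofFn_get]
    simp only [h0, if_false, zero_smul]
  · simp

lemma rep_homogeneous (k : ℕ) (p : Pol N 1) (hp : IsHomogeneous p k) : Rep k p := by
  classical
  rw [p.as_sum]
  have : ∀ S : Finset ((Fin N × Fin 1 × Fin 1) →₀ ℕ), S ⊆ p.support →
      Rep k (∑ v ∈ S, monomial v (coeff v p)) := by
    intro S
    induction S using Finset.induction_on with
    | empty => intro _; simpa using rep_zero k
    | insert v S hv ih =>
      intro hS
      rw [Finset.sum_insert hv]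
      refine rep_add k ?_ (ih ((Finset.subset_insert _ _).trans hS))
      have h1 : coeff v p ≠ 0 := by
        have := hS (Finset.mem_insert_self v S)
        simpa using this
      have h2 : v.degree = k := by
        have := hp h1
        rw [Finsupp.degree_eq_weight_one]
        exact this
      rw [← h2]
      exact rep_monomial v _
  exact this p.support (Finset.Subset.refl _)

/-- For `1 × 1` matrices every homogeneous bracket of positive degree is of form (*). -/
theorem form_one (k : ℕ) (hk : 0 < k) (B : Pol N 1 → Pol N 1 → Pol N 1)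
    (hB : IsHomogeneousBracket k B) : FormStar k B := by
  classical
  have h1 : ∀ α β : Fin N, Rep k (B (X (α, 0, 0)) (X (β, 0, 0))) :=
    fun α β => rep_homogeneous k _ (hB _ _)
  choose κ hκ using h1
  refine ⟨fun u v α β => if u = [] then κ α β v else 0, ?_⟩
  intro α β i j i' j'
  obtain rfl : i = 0 := Subsingleton.elim _ _
  obtain rfl : j = 0 := Subsingleton.elim _ _
  obtain rfl : i' = 0 := Subsingleton.elim _ _
  obtain rfl : j' = 0 := Subsingleton.elim _ _
  rw [hκ α β]
  refine Finset.sum_congr rfl fun w _ => ?_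
  rw [Finset.sum_eq_single 0]
  · simp [word]
  · intro a ha hne
    have h0 : (List.ofFn w).take a ≠ [] := by
      intro h
      have hlen := congrArg List.length h
      rw [List.length_take, List.length_ofFn] at hlen
      simp only [List.length_nil] at hlen
      omega
    simp only [h0, if_false, zero_smul]
  · simp

end SizeOne

end Pool.Agent.Y301.TB
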