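import Pool.Agent.Y301.TB.Two

set_option autoImplicit false

open MvPolynomial
open Pool.Agent.Results.MP_9bafdc_mp.NotStar (Pol gen evalM conjGen conj IsPoisson IsTraceBracket
  IsHomogeneousBracket word FormStar)

namespace Pool.Agent.Y301.TB.Gen

variable {m : ℕ}

/-- evaluation of a polynomial function at a complex matrix -/
noncomputable def ex (x : Matrix (Fin m) (Fin m) ℂ) : Pol 1 m →ₐ[ℂ] ℂ :=
  aeval fun a => x a.2.1 a.2.2

lemma ex_X (x : Matrix (Fin m) (Fin m) ℂ) (a : Fin 1) (i j : Fin m) :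
    ex x (X (a, i, j)) = x i j := by simp [ex]

lemma ex_conj (g : (Matrix (Fin m) (Fin m) ℂ)ˣ) (x : Matrix (Fin m) (Fin m) ℂ) (f : Pol 1 m) :
    ex x (conj g f) = ex (g.val * x * g⁻¹.val) f := by
  have h : (ex x).comp (conj g) = ex (g.val * x * g⁻¹.val) := by
    apply algHom_ext
    rintro ⟨a, i, j⟩
    obtain rfl : a = 0 := Subsingleton.elim _ _
    rw [AlgHom.comp_apply, conj_X, ex_X]
    simp only [map_sum, map_smul, ex_X, smul_eq_mul, Matrix.mul_apply, Finset.sum_mul]
    refine Finset.sum_congr rfl fun b _ => Finset.sum_congr rfl fun c _ => ?_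
    ring
  exact DFunLike.congr_fun h f

variable {B : Pol 1 m → Pol 1 m → Pol 1 m}

lemma add_right (hB : IsPoisson B) (f g h : Pol 1 m) : B f (g + h) = B f g + B f h := by
  rw [hB.antisymm, hB.add_left, hB.antisymm g f, hB.antisymm h f]; ring

lemma smul_right (hB : IsPoisson B) (c : ℂ) (f g : Pol 1 m) : B f (c • g) = c • B f g := by
  rw [hB.antisymm, hB.smul_left, hB.antisymm g f, smul_neg, neg_neg]

/-- the bracket as a bilinear map -/
noncomputable def Bl (hB : IsPoisson B) : Pol 1 m →ₗ[ℂ] Pol 1 m →ₗ[ℂ] Pol 1 m :=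
  LinearMap.mk₂ ℂ B hB.add_left hB.smul_left (add_right hB) (smul_right hB)

/-- the value of the bracket at a point -/
noncomputable def bt (B : Pol 1 m → Pol 1 m → Pol 1 m) (x : Matrix (Fin m) (Fin m) ℂ)
    (i j p q : Fin m) : ℂ := ex x (B (X (0, i, j)) (X (0, p, q)))

lemma bt_conj (hB : IsTraceBracket B) (g : (Matrix (Fin m) (Fin m) ℂ)ˣ)
    (x : Matrix (Fin m) (Fin m) ℂ) (i j p q : Fin m) :
    bt B (g.val * x * g⁻¹.val) i j p q = ∑ d, ∑ e, ∑ b, ∑ a,
      (g.val p e * g⁻¹.val d q) * ((g.val i a * g⁻¹.val b j) * bt B x a b e d) := by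
  have h1 : bt B (g.val * x * g⁻¹.val) i j p q
      = ex x (Bl hB.poisson (conj g (X (0, i, j))) (conj g (X (0, p, q)))) := by
    unfold bt
    rw [← ex_conj, hB.invariant]
    rfl
  rw [h1, conj_X, conj_X]
  simp only [map_sum, LinearMap.sum_apply, map_smul, LinearMap.smul_apply, smul_eq_mul,
    Finset.mul_sum]
  rfl

lemma bt_antisymm (hB : IsTraceBracket B) (x : Matrix (Fin m) (Fin m) ℂ) (i j p q : Fin m) :
    bt B x i j p q = - bt B x p q i j := by
  unfold bt
  rw [hB.poisson.antisymm, map_neg]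

lemma torus (hB : IsTraceBracket B) (l : Fin m → ℂ) (i j p q : Fin m)
    (h : ¬ ((i = j ∧ p = q) ∨ (i = q ∧ p = j))) : bt B (Matrix.diagonal l) i j p q = 0 := by
  have main : ∀ r : Fin m, bt B (Matrix.diagonal l) i j p q =
      (if i = r then 2 else 1) * (if j = r then 1 / 2 else 1) *
      ((if p = r then 2 else 1) * (if q = r then 1 / 2 else 1)) * bt B (Matrix.diagonal l) i j p q := by
    intro r
    let g : (Matrix (Fin m) (Fin m) ℂ)ˣ :=
      { val := Matrix.diagonal fun k => if k = r then 2 else 1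
        inv := Matrix.diagonal fun k => if k = r then 1 / 2 else 1
        val_inv := by
          rw [Matrix.diagonal_mul_diagonal, ← Matrix.diagonal_one]
          congr 1; funext k; split_ifs <;> norm_num
        inv_val := by
          rw [Matrix.diagonal_mul_diagonal, ← Matrix.diagonal_one]
          congr 1; funext k; split_ifs <;> norm_num }
    have hg : g.val = Matrix.diagonal fun k => if k = r then 2 else 1 := rfl
    have hi : g⁻¹.val = Matrix.diagonal fun k => if k = r then 1 / 2 else 1 := rfl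
    have hx : g.val * Matrix.diagonal l * g⁻¹.val = Matrix.diagonal l := by
      rw [hg, hi, Matrix.diagonal_mul_diagonal, Matrix.diagonal_mul_diagonal]
      congr 1; funext k; split_ifs <;> ring
    have key := bt_conj hB g (Matrix.diagonal l) i j p q
    rw [hx, hg, hi] at key
    have e1 : ∀ (F : Fin m → Fin m → Fin m → Fin m → ℂ) (s t : Fin m → ℂ),
        (∑ d, ∑ e, ∑ b, ∑ a, ((Matrix.diagonal s) p e * (Matrix.diagonal t) d q) *
          (((Matrix.diagonal s) i a * (Matrix.diagonal t) b j) * F a b e d))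
        = s i * t j * (s p * t q) * F i j p q := by
      intro F s t
      rw [Finset.sum_eq_single q, Finset.sum_eq_single p, Finset.sum_eq_single j,
        Finset.sum_eq_single i]
      · simp; ring
      · intro a _ ha; simp [Matrix.diagonal_apply_ne _ (Ne.symm ha)]
      · simp
      · intro b _ hb; simp [Matrix.diagonal_apply_ne _ hb]
      · simp
      · intro e _ he; simp [Matrix.diagonal_apply_ne _ (Ne.symm he)]
      · simp
      · intro d _ hd; simp [Matrix.diagonal_apply_ne _ hd]
      · simp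
    rw [e1 (fun a b e d => bt B (Matrix.diagonal l) a b e d)] at key
    exact key
  have k1 := main i
  have k2 := main p
  have k3 := main j
  have k4 := main q
  by_cases h1 : i = j
  · have h2 : p ≠ q := fun h2 => h (Or.inl ⟨h1, h2⟩)
    subst h1
    by_cases h3 : p = i
    · subst h3
      simp [h2, Ne.symm h2] at k1
      linear_combination (-1 : ℂ) * k1
    · by_cases h4 : q = i
      · subst h4
        simp [h2, Ne.symm h2] at k2
        linear_combination (-1 : ℂ) * k2
      · simp [h2, Ne.symm h2, Ne.symm h3] at k2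
        linear_combination (-1 : ℂ) * k2
  · by_cases h3 : i = q
    · have h4 : p ≠ j := fun h4 => h (Or.inr ⟨h3, h4⟩)
      subst h3
      by_cases h5 : p = i
      · subst h5
        simp [h4, Ne.symm h4] at k1
        linear_combination (-1 : ℂ) * k1
      · simp [h4, Ne.symm h4, h5, Ne.symm h5] at k2
        linear_combination (-1 : ℂ) * k2
    · by_cases h5 : p = i
      · subst h5
        simp [Ne.symm h1, Ne.symm h3] at k1
        linear_combination (-1 / 3 : ℂ) * k1
      · simp [Ne.symm h1, Ne.symm h3, h5] at k1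
        linear_combination (-1 : ℂ) * k1

/-- the derivation `{f, ·}` -/
noncomputable def dv (hB : IsPoisson B) (f : Pol 1 m) : Derivation ℂ (Pol 1 m) (Pol 1 m) :=
  Derivation.mk' (Bl hB f) fun a b => by
    change B f (a * b) = a • B f b + b • B f a
    rw [hB.leibniz, smul_eq_mul, smul_eq_mul]; ring

lemma dv_apply (hB : IsPoisson B) (f g : Pol 1 m) : dv hB f g = B f g := rfl

lemma ex_pow (l : Fin m → ℂ) (n : ℕ) :
    ((xx m) ^ n).map (ex (Matrix.diagonal l)) = Matrix.diagonal fun k => l k ^ n := by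
  induction n with
  | zero =>
    ext1 i j
    simp only [pow_zero, Matrix.map_apply, Matrix.one_apply, Matrix.diagonal_apply]
    split_ifs <;> simp
  | succ n ih =>
    have h : ((xx m) ^ n * xx m).map (ex (Matrix.diagonal l))
        = ((xx m) ^ n).map (ex (Matrix.diagonal l)) * (xx m).map (ex (Matrix.diagonal l)) := by
      ext1 i j; simp [Matrix.mul_apply]
    have h1 : (xx m).map (ex (Matrix.diagonal l)) = Matrix.diagonal l := by
      ext1 i j
      simp only [Matrix.map_apply, gen, Matrix.of_apply, ex_X]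
    rw [pow_succ, h, ih, h1, Matrix.diagonal_mul_diagonal]
    congr 1

lemma ex_app_pow (l : Fin m → ℂ) (δ : Derivation ℂ (Pol 1 m) (Pol 1 m)) (n : ℕ) (k : Fin m) :
    ex (Matrix.diagonal l) (app δ ((xx m) ^ (n + 1)) k k)
      = (n + 1) * l k ^ n * ex (Matrix.diagonal l) (δ (X (0, k, k))) := by
  induction n with
  | zero =>
    rw [zero_add, pow_one]
    simp [app, gen]
  | succ n ih =>
    rw [pow_succ, app_mul, Matrix.add_apply, map_add, Matrix.mul_apply, Matrix.mul_apply, map_sum,
      map_sum, Finset.sum_eq_single k, Finset.sum_eq_single k]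
    · have h1 : ex (Matrix.diagonal l) ((xx m ^ (n + 1)) k k) = l k ^ (n + 1) := by
        have := congrFun (congrFun (ex_pow l (n + 1)) k) k
        simpa using this
      have h2 : ex (Matrix.diagonal l) (xx m k k) = l k := by
        simp [gen, ex_X]
      have h3 : app δ (xx m) k k = δ (X (0, k, k)) := rfl
      rw [map_mul, map_mul, ih, h1, h2, h3]
      push_cast
      ring
    · intro b _ hb
      have h1 : ex (Matrix.diagonal l) ((xx m ^ (n + 1)) k b) = 0 := by
        have := congrFun (congrFun (ex_pow l (n + 1)) k) b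
        simpa [Matrix.diagonal_apply_ne _ (Ne.symm hb)] using this
      rw [map_mul, h1, zero_mul]
    · simp
    · intro b _ hb
      have h2 : ex (Matrix.diagonal l) (xx m b k) = 0 := by
        simp [gen, ex_X, Matrix.diagonal_apply_ne _ hb]
      rw [map_mul, h2, mul_zero]
    · simp

lemma ex_trace (l : Fin m → ℂ) (δ : Derivation ℂ (Pol 1 m) (Pol 1 m)) (n : ℕ) :
    ex (Matrix.diagonal l) (δ ((xx m) ^ (n + 1)).trace)
      = (n + 1) * ∑ k, l k ^ n * ex (Matrix.diagonal l) (δ (X (0, k, k))) := by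
  have h : δ ((xx m) ^ (n + 1)).trace = ∑ k, app δ ((xx m) ^ (n + 1)) k k := by
    simp [Matrix.trace, app]
  rw [h, map_sum, Finset.mul_sum]
  refine Finset.sum_congr rfl fun k _ => ?_
  rw [ex_app_pow]; ring

lemma diag_ev (l : Fin m → ℂ) (P : FreeAlgebra ℂ (Fin 1)) :
    (evalM m P).map (ex (Matrix.diagonal l)) =
      Matrix.diagonal fun k => FreeAlgebra.lift ℂ (fun _ : Fin 1 => l k) P := by
  induction P using FreeAlgebra.induction with
  | grade0 r =>
    simp only [evalM, AlgHom.commutes]
    ext1 i j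
    simp only [Matrix.map_apply, Matrix.algebraMap_matrix_apply, Matrix.diagonal_apply]
    split_ifs <;> simp
  | grade1 x =>
    obtain rfl : x = 0 := Subsingleton.elim _ _
    simp only [evalM, FreeAlgebra.lift_ι_apply]
    ext1 i j
    simp only [Matrix.map_apply, gen, Matrix.of_apply, ex_X]
  | mul a b ha hb =>
    have h1 : evalM m (a * b) = evalM m a * evalM m b := by simp [evalM]
    have h2 : (evalM m a * evalM m b).map (ex (Matrix.diagonal l))
        = (evalM m a).map (ex (Matrix.diagonal l)) * (evalM m b).map (ex (Matrix.diagonal l)) := by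
      ext1 i j; simp [Matrix.mul_apply]
    rw [h1, h2, ha, hb, Matrix.diagonal_mul_diagonal]
    congr 1; funext k; rw [map_mul]
  | add a b ha hb =>
    have h1 : evalM m (a + b) = evalM m a + evalM m b := by simp [evalM]
    have h2 : (evalM m a + evalM m b).map (ex (Matrix.diagonal l))
        = (evalM m a).map (ex (Matrix.diagonal l)) + (evalM m b).map (ex (Matrix.diagonal l)) := by
      ext1 i j; simp
    rw [h1, h2, ha, hb, Matrix.diagonal_add]
    congr 1; funext k; rw [map_add]

lemma trace_ev (l : Fin m → ℂ) (P : FreeAlgebra ℂ (Fin 1)) :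
    ex (Matrix.diagonal l) (evalM m P).trace =
      ∑ k, FreeAlgebra.lift ℂ (fun _ : Fin 1 => l k) P := by
  have h : ex (Matrix.diagonal l) (evalM m P).trace
      = ((evalM m P).map (ex (Matrix.diagonal l))).trace := by
    simp [Matrix.trace]
  rw [h, diag_ev, Matrix.trace_diagonal]

/-- the traces of powers commute at diagonal matrices -/
lemma comm_traces (hB : IsTraceBracket B) (l : Fin m → ℂ) (a b : ℕ) :
    ex (Matrix.diagonal l) (B ((xx m) ^ (a + 1)).trace ((xx m) ^ (b + 1)).trace) = 0 := by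
  obtain ⟨P, hP⟩ := hB.trace (FreeAlgebra.ι ℂ 0 ^ (a + 1)) (FreeAlgebra.ι ℂ 0 ^ (b + 1))
  have e : ∀ n : ℕ, evalM m (FreeAlgebra.ι ℂ (0 : Fin 1) ^ n) = xx m ^ n := by
    intro n; simp [evalM]
  rw [e, e] at hP
  have hself : ∀ f : Pol 1 m, B f f = 0 := by
    intro f
    have h := hB.poisson.antisymm f f
    have h2 : (2 : ℂ) • B f f = 0 := by
      rw [two_smul]; nth_rewrite 1 [h]; simp
    exact (smul_eq_zero.1 h2).resolve_left two_ne_zero
  have htr : (xx m).trace = ∑ k, X (0, k, k) := by simp [Matrix.trace, gen]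
  have hsc : ∀ (f : Pol 1 m) (c : ℂ) (n : ℕ),
      ex (Matrix.diagonal fun _ => c) (B f ((xx m) ^ (n + 1)).trace)
        = (n + 1) * (c ^ n * ex (Matrix.diagonal fun _ => c) (B f (xx m).trace)) := by
    intro f c n
    have h := ex_trace (fun _ : Fin m => c) (dv hB.poisson f) n
    rw [dv_apply] at h
    rw [h, ← Finset.mul_sum, htr, ← dv_apply hB.poisson f (∑ k, X (0, k, k)), map_sum, map_sum]
  have hp : ∀ c : ℂ, (m : ℂ) * FreeAlgebra.lift ℂ (fun _ : Fin 1 => c) P = 0 := by
    intro c
    have h := trace_ev (fun _ : Fin m => c) P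
    rw [← hP, hsc, hB.poisson.antisymm, map_neg, hsc, hself, map_zero] at h
    simp only [mul_zero, neg_zero, Finset.sum_const, Finset.card_univ, Fintype.card_fin,
      nsmul_eq_mul] at h
    exact h.symm
  rw [hP, trace_ev]
  apply Finset.sum_eq_zero
  intro k _
  have hm : (m : ℂ) ≠ 0 := by
    have := k.pos
    exact_mod_cast this.ne'
  exact (mul_eq_zero.1 (hp (l k))).resolve_left hm

lemma rad (hB : IsTraceBracket B) (l : Fin m → ℂ) (hl : Function.Injective l) (p q : Fin m) :
    bt B (Matrix.diagonal l) p p q q = 0 := by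
  have h1 : ∀ a : ℕ, ∀ q : Fin m,
      ex (Matrix.diagonal l) (B ((xx m) ^ (a + 1)).trace (X (0, q, q))) = 0 := by
    intro a
    have h := Matrix.eq_zero_of_forall_pow_sum_mul_pow_eq_zero (f := l)
      (v := fun q => ex (Matrix.diagonal l) (B ((xx m) ^ (a + 1)).trace (X (0, q, q)))) hl ?_
    · intro q; exact congrFun h q
    · intro i
      have h2 := ex_trace l (dv hB.poisson ((xx m) ^ (a + 1)).trace) i
      rw [dv_apply, comm_traces hB] at h2
      have h3 : (((i : ℕ) : ℂ) + 1) ≠ 0 := Nat.cast_add_one_ne_zero (i : ℕ)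
      have h4 := (mul_eq_zero.1 h2.symm).resolve_left h3
      rw [← h4]
      refine Finset.sum_congr rfl fun k _ => ?_
      rw [dv_apply]; ring
  have h5 := Matrix.eq_zero_of_forall_pow_sum_mul_pow_eq_zero (f := l)
    (v := fun p => bt B (Matrix.diagonal l) q q p p) hl ?_
  · rw [bt_antisymm hB]
    have := congrFun h5 p
    simp only [Pi.zero_apply] at this
    rw [this, neg_zero]
  · intro i
    have h2 := ex_trace l (dv hB.poisson (X (0, q, q))) i
    rw [dv_apply, hB.poisson.antisymm, map_neg, h1, neg_zero] at h2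
    have h3 : (((i : ℕ) : ℂ) + 1) ≠ 0 := Nat.cast_add_one_ne_zero (i : ℕ)
    have h4 := (mul_eq_zero.1 h2.symm).resolve_left h3
    rw [← h4]
    refine Finset.sum_congr rfl fun k _ => ?_
    rw [dv_apply]; unfold bt; ring

lemma at_diag (hB : IsTraceBracket B) (l : Fin m → ℂ) (hl : Function.Injective l)
    (i j p q : Fin m) : bt B (Matrix.diagonal l) i j p q
      = if i = q ∧ p = j then bt B (Matrix.diagonal l) i p p i else 0 := by
  by_cases h : i = q ∧ p = j
  · rw [if_pos h]
    obtain ⟨rfl, rfl⟩ := h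
    rfl
  · rw [if_neg h]
    by_cases h2 : i = j ∧ p = q
    · obtain ⟨rfl, rfl⟩ := h2
      exact rad hB l hl i p
    · apply torus hB
      rintro (h3 | h3)
      · exact h2 h3
      · exact h h3

lemma at_conj (hB : IsTraceBracket B) (l : Fin m → ℂ) (hl : Function.Injective l)
    (g : (Matrix (Fin m) (Fin m) ℂ)ˣ) (i j p q : Fin m) :
    bt B (g.val * Matrix.diagonal l * g⁻¹.val) i j p q = ∑ d, ∑ e,
      bt B (Matrix.diagonal l) d e e d * ((g.val i d * g⁻¹.val d q) * (g.val p e * g⁻¹.val e j)) := by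
  rw [bt_conj hB]
  refine Finset.sum_congr rfl fun d _ => Finset.sum_congr rfl fun e _ => ?_
  rw [Finset.sum_eq_single e, Finset.sum_eq_single d]
  · ring
  · intro a _ ha
    rw [at_diag hB l hl, if_neg (fun h => ha h.1)]; ring
  · simp
  · intro b _ hb
    apply Finset.sum_eq_zero
    intro a _
    rw [at_diag hB l hl, if_neg (fun h => hb h.2.symm)]; ring
  · simp

lemma units_span (l : Fin m → ℂ) (hl : Function.Injective l) :
    ∃ L : Fin m → Fin m → ℂ, ∀ (g : (Matrix (Fin m) (Fin m) ℂ)ˣ) (d i q : Fin m),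
      g.val i d * g⁻¹.val d q
      = ∑ n : Fin m, L d n * ((g.val * Matrix.diagonal l * g⁻¹.val) ^ (n : ℕ)) i q := by
  have hV : IsUnit (Matrix.vandermonde l).det :=
    isUnit_iff_ne_zero.2 (Matrix.det_vandermonde_ne_zero_iff.2 hl)
  have hinv := Matrix.mul_nonsing_inv _ hV
  refine ⟨fun d n => (Matrix.vandermonde l)⁻¹ n d, ?_⟩
  intro g d i q
  have hpow : ∀ n : ℕ, (g.val * Matrix.diagonal l * g⁻¹.val) ^ n
      = g.val * Matrix.diagonal (fun k => l k ^ n) * g⁻¹.val := by
    intro n
    induction n with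
    | zero => simp
    | succ n ih =>
      rw [pow_succ, ih]
      calc g.val * Matrix.diagonal (fun k => l k ^ n) * g⁻¹.val
            * (g.val * Matrix.diagonal l * g⁻¹.val)
          = g.val * Matrix.diagonal (fun k => l k ^ n) * (g⁻¹.val * g.val) * Matrix.diagonal l
            * g⁻¹.val := by simp only [mul_assoc]
        _ = g.val * (Matrix.diagonal (fun k => l k ^ n) * Matrix.diagonal l) * g⁻¹.val := by
            rw [Units.inv_mul]; simp only [mul_assoc, one_mul]
        _ = _ := by rw [Matrix.diagonal_mul_diagonal]; rfl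
  have h1 : ∀ n : Fin m, ((g.val * Matrix.diagonal l * g⁻¹.val) ^ (n : ℕ)) i q
      = ∑ k, g.val i k * l k ^ (n : ℕ) * g⁻¹.val k q := by
    intro n
    rw [hpow, Matrix.mul_apply]
    refine Finset.sum_congr rfl fun k _ => ?_
    rw [Matrix.mul_diagonal]
  simp only [h1, Finset.mul_sum]
  rw [Finset.sum_comm]
  have h2 : ∀ k : Fin m, ∑ n : Fin m, (Matrix.vandermonde l)⁻¹ n d *
      (g.val i k * l k ^ (n : ℕ) * g⁻¹.val k q) = if k = d then g.val i k * g⁻¹.val k q else 0 := by
    intro k
    have h3 := congrFun (congrFun hinv k) d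
    rw [Matrix.mul_apply, Matrix.one_apply] at h3
    simp only [Matrix.vandermonde_apply] at h3
    have h4 : ∑ n : Fin m, (Matrix.vandermonde l)⁻¹ n d *
        (g.val i k * l k ^ (n : ℕ) * g⁻¹.val k q)
        = (g.val i k * g⁻¹.val k q) * ∑ n : Fin m, l k ^ (n : ℕ) * (Matrix.vandermonde l)⁻¹ n d := by
      rw [Finset.mul_sum]
      refine Finset.sum_congr rfl fun n _ => ?_
      ring
    rw [h4, h3]
    split_ifs <;> simp
  rw [Finset.sum_congr rfl fun k _ => h2 k, Finset.sum_ite_eq']
  simp

lemma sum_swap (F : Fin m → Fin m → Fin m → Fin m → ℂ) :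
    ∑ d, ∑ e, ∑ a, ∑ b, F d e a b = ∑ a, ∑ b, ∑ d, ∑ e, F d e a b := by
  calc ∑ d, ∑ e, ∑ a, ∑ b, F d e a b = ∑ d, ∑ a, ∑ e, ∑ b, F d e a b := by
        refine Finset.sum_congr rfl fun d _ => ?_
        rw [Finset.sum_comm]
    _ = ∑ a, ∑ d, ∑ e, ∑ b, F d e a b := by rw [Finset.sum_comm]
    _ = _ := by
        refine Finset.sum_congr rfl fun a _ => ?_
        calc ∑ d, ∑ e, ∑ b, F d e a b = ∑ d, ∑ b, ∑ e, F d e a b := by
              refine Finset.sum_congr rfl fun d _ => ?_
              rw [Finset.sum_comm]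
          _ = _ := by rw [Finset.sum_comm]

/-- The general formula for one matrix, at matrices with distinct eigenvalues. -/
theorem formula (hB : IsTraceBracket B) (l : Fin m → ℂ) (hl : Function.Injective l) :
    ∃ s : Fin m → Fin m → ℂ, (∀ a b, s a b = - s b a) ∧
      ∀ (g : (Matrix (Fin m) (Fin m) ℂ)ˣ) (i j p q : Fin m),
      ex (g.val * Matrix.diagonal l * g⁻¹.val) (B (X (0, i, j)) (X (0, p, q)))
        = ∑ a : Fin m, ∑ b : Fin m, s a b *
          (((g.val * Matrix.diagonal l * g⁻¹.val) ^ (a : ℕ)) i q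
            * ((g.val * Matrix.diagonal l * g⁻¹.val) ^ (b : ℕ)) p j) := by
  obtain ⟨L, hL⟩ := units_span l hl
  refine ⟨fun a b => ∑ d, ∑ e, bt B (Matrix.diagonal l) d e e d * (L d a * L e b), ?_, ?_⟩
  · intro a b
    beta_reduce
    rw [Finset.sum_comm, ← Finset.sum_neg_distrib]
    refine Finset.sum_congr rfl fun d _ => ?_
    rw [← Finset.sum_neg_distrib]
    refine Finset.sum_congr rfl fun e _ => ?_
    rw [bt_antisymm hB]; ring
  · intro g i j p q
    have h := at_conj hB l hl g i j p q
    unfold bt at h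
    rw [h]
    set x := g.val * Matrix.diagonal l * g⁻¹.val with hx
    have lhs : ∀ d e, ex (Matrix.diagonal l) (B (X (0, d, e)) (X (0, e, d))) *
        ((g.val i d * g⁻¹.val d q) * (g.val p e * g⁻¹.val e j)) = ∑ a : Fin m, ∑ b : Fin m,
        bt B (Matrix.diagonal l) d e e d * (L d a * L e b) *
          ((x ^ (a : ℕ)) i q * (x ^ (b : ℕ)) p j) := by
      intro d e
      rw [hL, hL, Finset.sum_mul_sum, Finset.mul_sum]
      refine Finset.sum_congr rfl fun a _ => ?_
      rw [Finset.mul_sum]
      refine Finset.sum_congr rfl fun b _ => ?_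
      unfold bt
      ring
    rw [Finset.sum_congr rfl fun d _ => Finset.sum_congr rfl fun e _ => lhs d e, sum_swap]
    refine Finset.sum_congr rfl fun a _ => Finset.sum_congr rfl fun b _ => ?_
    rw [Finset.sum_mul]
    refine Finset.sum_congr rfl fun d _ => ?_
    rw [Finset.sum_mul]

end Pool.Agent.Y301.TB.Gen
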