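import Pool.Agent.Results.MP_9bafdc_mp.NotStar

set_option autoImplicit false

open MvPolynomial
open Pool.Agent.Results.MP_9bafdc_mp.NotStar (Pol gen evalM conjGen conj IsPoisson IsTraceBracket
  IsHomogeneousBracket word FormStar)

namespace Pool.Agent.Y301.TB

variable {m : ℕ}

/-- the single matrix variable -/
noncomputable abbrev xx (m : ℕ) : Matrix (Fin m) (Fin m) (Pol 1 m) := gen 0

/-- the transposed gradient -/
noncomputable def grad (f : Pol 1 m) : Matrix (Fin m) (Fin m) (Pol 1 m) :=
  Matrix.of fun i j => pderiv (0, j, i) f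

lemma grad_add (f g : Pol 1 m) : grad (f + g) = grad f + grad g := by
  ext1 i j; simp [grad]

lemma grad_smul (c : ℂ) (f : Pol 1 m) : grad (c • f) = c • grad f := by
  ext1 i j
  simp only [grad, Matrix.of_apply, Matrix.smul_apply, Derivation.map_smul]

lemma grad_mul (f g : Pol 1 m) : grad (f * g) = f • grad g + g • grad f := by
  ext1 i j
  simp only [grad, Matrix.of_apply, Matrix.smul_apply, Matrix.add_apply, Derivation.leibniz]

lemma grad_C (c : ℂ) : grad (C c : Pol 1 m) = 0 := by
  ext1 i j
  simp [grad]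

lemma grad_X (i j : Fin m) : grad (X (0, i, j) : Pol 1 m) = Matrix.single j i 1 := by
  ext1 a b
  simp only [grad, Matrix.of_apply, pderiv_X, Matrix.single_apply, Pi.single_apply, Prod.mk.injEq,
    true_and]
  by_cases h1 : j = a <;> by_cases h2 : i = b <;> simp [h1, h2]

/-- The Lie-Poisson bracket of `gl_m` multiplied by `tr(x) ^ k`. -/
noncomputable def br (k : ℕ) (f g : Pol 1 m) : Pol 1 m :=
  (xx m).trace ^ k * ((grad f * xx m - xx m * grad f) * grad g).trace

lemma br_antisymm (k : ℕ) (f g : Pol 1 m) : br k f g = - br k g f := by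
  have h1 : (grad f * xx m * grad g).trace = (grad g * grad f * xx m).trace := by
    rw [Matrix.trace_mul_comm, ← mul_assoc]
  have h2 : (xx m * grad f * grad g).trace = (grad f * grad g * xx m).trace := by
    rw [mul_assoc, Matrix.trace_mul_comm]
  have h3 : (grad g * xx m * grad f).trace = (grad f * grad g * xx m).trace := by
    rw [Matrix.trace_mul_comm, ← mul_assoc]
  have h4 : (xx m * grad g * grad f).trace = (grad g * grad f * xx m).trace := by
    rw [mul_assoc, Matrix.trace_mul_comm]
  unfold br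
  rw [sub_mul, sub_mul, Matrix.trace_sub, Matrix.trace_sub, h1, h2, h3, h4]
  ring

lemma br_mul (k : ℕ) (f g h : Pol 1 m) : br k f (g * h) = g * br k f h + h * br k f g := by
  simp only [br, grad_mul, mul_add, Matrix.mul_smul, Matrix.trace_add, Matrix.trace_smul,
    smul_eq_mul]
  ring

lemma br_add (k : ℕ) (f g h : Pol 1 m) : br k f (g + h) = br k f g + br k f h := by
  simp only [br, grad_add, mul_add, Matrix.trace_add]

lemma br_smul (k : ℕ) (f g : Pol 1 m) (c : ℂ) : br k f (c • g) = c • br k f g := by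
  simp only [br, grad_smul, mul_smul_comm, Matrix.trace_smul]

/-- the Hamiltonian derivation of `f` -/
noncomputable def ham (k : ℕ) (f : Pol 1 m) : Derivation ℂ (Pol 1 m) (Pol 1 m) :=
  Derivation.mk' ⟨⟨br k f, br_add k f⟩, fun c g => br_smul k f g c⟩
    (fun g h => br_mul k f g h)

lemma ham_apply (k : ℕ) (f g : Pol 1 m) : ham k f g = br k f g := rfl

lemma br_X (k : ℕ) (f : Pol 1 m) (i j : Fin m) :
    br k f (X (0, i, j)) = (xx m).trace ^ k * (grad f * xx m - xx m * grad f) i j := by
  unfold br
  rw [grad_X, Matrix.trace_mul_single]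
  simp

/-- the Kronecker delta -/
noncomputable def dl (i j : Fin m) : Pol 1 m := if i = j then 1 else 0

lemma br_XX (k : ℕ) (i j p q : Fin m) :
    br k (X (0, i, j)) (X (0, p, q)) = (xx m).trace ^ k *
      (dl j p * (X (0, i, q) : Pol 1 m) - dl i q * X (0, p, j)) := by
  rw [br_X, grad_X]
  congr 1
  rw [Matrix.sub_apply]
  have h1 : (Matrix.single j i (1 : Pol 1 m) * xx m : Matrix (Fin m) (Fin m) (Pol 1 m)) p q = dl j p * (X (0, i, q) : Pol 1 m) := by
    unfold dl
    by_cases h : j = p
    · subst h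
      simp [gen]
    · rw [Matrix.single_mul_apply_of_ne _ _ _ _ _ (Ne.symm h)]
      simp [h]
  have h2 : (xx m * Matrix.single j i (1 : Pol 1 m) : Matrix (Fin m) (Fin m) (Pol 1 m)) p q = dl i q * (X (0, p, j) : Pol 1 m) := by
    unfold dl
    by_cases h : i = q
    · subst h
      simp [gen]
    · rw [Matrix.mul_single_apply_of_ne _ _ _ _ _ (Ne.symm h)]
      simp [h]
  rw [h1, h2]

lemma ham_trace (k : ℕ) (f : Pol 1 m) : ham k f (xx m).trace = 0 := by
  have h : ham k f (xx m).trace = ∑ i, (xx m).trace ^ k * (grad f * xx m - xx m * grad f) i i := by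
    simp only [Matrix.trace, Matrix.diag_apply, map_sum]
    refine Finset.sum_congr rfl fun i _ => ?_
    exact br_X k f i i
  rw [h, ← Finset.mul_sum]
  have : ∑ i, (grad f * xx m - xx m * grad f) i i = (grad f * xx m - xx m * grad f).trace := rfl
  rw [this, Matrix.trace_sub, Matrix.trace_mul_comm, sub_self, mul_zero]

lemma ham_trace_pow (k l : ℕ) (f : Pol 1 m) : ham k f ((xx m).trace ^ l) = 0 := by
  rw [Derivation.leibniz_pow, ham_trace]
  simp

/-- the Jacobiator -/
noncomputable def jac (k : ℕ) (f g : Pol 1 m) : Derivation ℂ (Pol 1 m) (Pol 1 m) :=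
  ⁅ham k f, ham k g⁆ - ham k (br k f g)

lemma jac_apply (k : ℕ) (f g h : Pol 1 m) :
    jac k f g h = br k f (br k g h) + br k g (br k h f) + br k h (br k f g) := by
  unfold jac
  rw [Derivation.sub_apply, Derivation.commutator_apply, ham_apply, ham_apply, ham_apply,
    ham_apply, ham_apply, br_antisymm k (br k f g) h, br_antisymm k h f]
  have : br k g (-br k f h) = - br k g (br k f h) := by
    have := (ham k g).map_neg (br k f h)
    simpa [ham_apply] using this
  rw [this]
  ring

lemma jac_cycle (k : ℕ) (f g h : Pol 1 m) : jac k f g h = jac k h f g := by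
  rw [jac_apply, jac_apply]; ring

lemma br_X_brXX (k : ℕ) (i j p q r s : Fin m) :
    br k (X (0, i, j)) (br k (X (0, p, q)) (X (0, r, s))) = (xx m).trace ^ k * ((xx m).trace ^ k *
      (dl q r * (dl j p * X (0, i, s) - dl i s * X (0, p, j))
        - dl p s * (dl j r * X (0, i, q) - dl i q * X (0, r, j)))) := by
  rw [br_XX k p q r s, ← ham_apply, Derivation.leibniz, ham_trace_pow, smul_zero, add_zero,
    map_sub, smul_eq_mul]
  have h1 : ∀ (a b : Fin m) (f : Pol 1 m), ham k (X (0, i, j)) (dl a b * f)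
      = dl a b * ham k (X (0, i, j)) f := by
    intro a b f
    unfold dl
    split_ifs <;> simp
  rw [h1, h1, ham_apply, ham_apply, br_XX, br_XX]
  ring

lemma jac_XXX (k : ℕ) (a b c : Fin 1 × Fin m × Fin m) : jac k (X a) (X b) (X c) = 0 := by
  obtain ⟨a0, i, j⟩ := a
  obtain ⟨b0, p, q⟩ := b
  obtain ⟨c0, r, s⟩ := c
  obtain rfl : a0 = 0 := Subsingleton.elim _ _
  obtain rfl : b0 = 0 := Subsingleton.elim _ _
  obtain rfl : c0 = 0 := Subsingleton.elim _ _
  rw [jac_apply, br_X_brXX, br_X_brXX, br_X_brXX]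
  have hd : ∀ a b : Fin m, dl a b = dl b a := by
    intro a b; unfold dl; simp only [eq_comm]
  rw [hd r q, hd s p]
  rw [hd s i, hd j r, hd j p, hd q i]
  ring

end Pool.Agent.Y301.TB
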