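import Pool.Agent.Y301.TB.One

set_option autoImplicit false

open MvPolynomial
open Pool.Agent.Results.MP_9bafdc_mp.NotStar (Pol gen evalM conjGen conj IsPoisson IsTraceBracket
  IsHomogeneousBracket word FormStar)

namespace Pool.Agent.Y301.TB

variable {m : ℕ}

lemma jac_zero (k : ℕ) (f g : Pol 1 m) : jac k f g = 0 := by
  have h1 : ∀ a b, jac k (X a : Pol 1 m) (X b) = 0 := by
    intro a b
    apply derivation_ext
    intro c
    rw [jac_XXX]; simp
  have h2 : ∀ a (f : Pol 1 m), jac k (X a) f = 0 := by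
    intro a f
    apply derivation_ext
    intro c
    rw [jac_cycle, h1]; simp
  apply derivation_ext
  intro c
  rw [jac_cycle, h2]; simp

lemma poisson_br (k : ℕ) : IsPoisson (br k : Pol 1 m → Pol 1 m → Pol 1 m) := by
  refine ⟨?_, ?_, ?_, ?_, ?_⟩
  · intro f g h
    rw [br_antisymm k (f + g) h, br_add, br_antisymm k f h, br_antisymm k g h]; ring
  · intro c f g
    rw [br_antisymm k (c • f) g, br_smul, br_antisymm k f g, smul_neg]
  · exact br_antisymm k
  · intro f g h
    rw [br_mul]; ring
  · intro f g h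
    have := jac_apply k f g h
    rw [jac_zero] at this
    simpa using this.symm

/-- entrywise application of a derivation -/
noncomputable def app (D : Derivation ℂ (Pol 1 m) (Pol 1 m))
    (A : Matrix (Fin m) (Fin m) (Pol 1 m)) : Matrix (Fin m) (Fin m) (Pol 1 m) :=
  A.map D

lemma app_mul (D : Derivation ℂ (Pol 1 m) (Pol 1 m))
    (A B : Matrix (Fin m) (Fin m) (Pol 1 m)) : app D (A * B) = app D A * B + A * app D B := by
  ext1 i j
  simp only [app, Matrix.map_apply, Matrix.mul_apply, Matrix.add_apply, map_sum]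
  rw [← Finset.sum_add_distrib]
  apply Finset.sum_congr rfl
  intro l _
  rw [Derivation.leibniz, smul_eq_mul, smul_eq_mul]
  ring

lemma app_add (D : Derivation ℂ (Pol 1 m) (Pol 1 m))
    (A B : Matrix (Fin m) (Fin m) (Pol 1 m)) : app D (A + B) = app D A + app D B := by
  ext1 i j; simp [app]

lemma app_ham_gen (k : ℕ) (f : Pol 1 m) :
    app (ham k f) (xx m) = (xx m).trace ^ k • (grad f * xx m - xx m * grad f) := by
  ext1 i j
  exact br_X k f i j

lemma app_ham_evalM (k : ℕ) (f : Pol 1 m) (P : FreeAlgebra ℂ (Fin 1)) :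
    app (ham k f) (evalM m P) =
      (xx m).trace ^ k • (grad f * evalM m P - evalM m P * grad f) := by
  induction P using FreeAlgebra.induction with
  | grade0 r =>
    simp only [evalM, AlgHom.commutes]
    rw [Algebra.commutes, sub_self, smul_zero]
    ext1 i j
    simp only [app, Matrix.map_apply, Matrix.algebraMap_matrix_apply, Matrix.zero_apply]
    split_ifs <;> simp
  | grade1 x =>
    obtain rfl : x = 0 := Subsingleton.elim _ _
    simp only [evalM, FreeAlgebra.lift_ι_apply]
    exact app_ham_gen k f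
  | mul a b ha hb =>
    have : evalM m (a * b) = evalM m a * evalM m b := by simp [evalM]
    rw [this, app_mul, ha, hb, Matrix.smul_mul, Matrix.mul_smul, ← smul_add]
    congr 1
    noncomm_ring
  | add a b ha hb =>
    have : evalM m (a + b) = evalM m a + evalM m b := by simp [evalM]
    rw [this, app_add, ha, hb, ← smul_add]
    congr 1
    noncomm_ring

lemma br_trace (k : ℕ) (f : Pol 1 m) (P : FreeAlgebra ℂ (Fin 1)) :
    br k f (evalM m P).trace = 0 := by
  have h1 : br k f (evalM m P).trace = (app (ham k f) (evalM m P)).trace := by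
    rw [← ham_apply]
    simp [Matrix.trace, app]
  rw [h1, app_ham_evalM, Matrix.trace_smul, Matrix.trace_sub, Matrix.trace_mul_comm, sub_self,
    smul_zero]

/-- constant matrices -/
noncomputable def cst (g : Matrix (Fin m) (Fin m) ℂ) : Matrix (Fin m) (Fin m) (Pol 1 m) :=
  g.map C

lemma cst_inv_mul (g : (Matrix (Fin m) (Fin m) ℂ)ˣ) :
    (cst g⁻¹.val : Matrix (Fin m) (Fin m) (Pol 1 m)) * cst g.val = 1 := by
  unfold cst
  rw [← Matrix.map_mul, Units.inv_mul, Matrix.map_one C (map_zero C) (map_one C)]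

lemma cst_mul_inv (g : (Matrix (Fin m) (Fin m) ℂ)ˣ) :
    (cst g.val : Matrix (Fin m) (Fin m) (Pol 1 m)) * cst g⁻¹.val = 1 := by
  unfold cst
  rw [← Matrix.map_mul, Units.mul_inv, Matrix.map_one C (map_zero C) (map_one C)]

/-- entrywise application of an algebra map -/
noncomputable def mp (φ : Pol 1 m →ₐ[ℂ] Pol 1 m)
    (A : Matrix (Fin m) (Fin m) (Pol 1 m)) : Matrix (Fin m) (Fin m) (Pol 1 m) :=
  A.map φ

lemma mp_mul (φ : Pol 1 m →ₐ[ℂ] Pol 1 m)
    (A B : Matrix (Fin m) (Fin m) (Pol 1 m)) : mp φ (A * B) = mp φ A * mp φ B := by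
  ext1 i j; simp [mp, Matrix.mul_apply]

lemma mp_sub (φ : Pol 1 m →ₐ[ℂ] Pol 1 m)
    (A B : Matrix (Fin m) (Fin m) (Pol 1 m)) : mp φ (A - B) = mp φ A - mp φ B := by
  ext1 i j; simp [mp]

lemma mp_add (φ : Pol 1 m →ₐ[ℂ] Pol 1 m)
    (A B : Matrix (Fin m) (Fin m) (Pol 1 m)) : mp φ (A + B) = mp φ A + mp φ B := by
  ext1 i j; simp [mp]

lemma mp_smul (φ : Pol 1 m →ₐ[ℂ] Pol 1 m) (f : Pol 1 m)
    (A : Matrix (Fin m) (Fin m) (Pol 1 m)) : mp φ (f • A) = φ f • mp φ A := by
  ext1 i j; simp [mp]

lemma mp_trace (φ : Pol 1 m →ₐ[ℂ] Pol 1 m)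
    (A : Matrix (Fin m) (Fin m) (Pol 1 m)) : φ A.trace = (mp φ A).trace := by
  simp [mp, Matrix.trace]

lemma mp_conj_gen (g : (Matrix (Fin m) (Fin m) ℂ)ˣ) :
    mp (conj g) (xx m) = cst g.val * xx m * cst g⁻¹.val := by
  ext1 i j
  simp [mp, gen, conj, conjGen, cst]

lemma conj_X (g : (Matrix (Fin m) (Fin m) ℂ)ˣ) (i j : Fin m) :
    conj g (X (0, i, j) : Pol 1 m) = ∑ b, ∑ a, (g.val i a * g⁻¹.val b j) • (X (0, a, b) : Pol 1 m) := by
  have h : conj g (X (0, i, j) : Pol 1 m) = (cst g.val * xx m * cst g⁻¹.val) i j := by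
    rw [← mp_conj_gen]; rfl
  rw [h, Matrix.mul_apply]
  refine Finset.sum_congr rfl fun b _ => ?_
  rw [Matrix.mul_apply, Finset.sum_mul]
  refine Finset.sum_congr rfl fun a _ => ?_
  simp only [cst, Matrix.map_apply, gen, Matrix.of_apply, smul_eq_C_mul, C_mul]
  ring

lemma grad_sum {ι : Type*} (s : Finset ι) (f : ι → Pol 1 m) :
    grad (∑ i ∈ s, f i) = ∑ i ∈ s, grad (f i) := by
  classical
  induction s using Finset.induction_on with
  | empty =>
    rw [Finset.sum_empty, Finset.sum_empty]
    ext1 i j; simp [grad]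
  | insert a s ha ih => rw [Finset.sum_insert ha, Finset.sum_insert ha, grad_add, ih]

lemma grad_conj (g : (Matrix (Fin m) (Fin m) ℂ)ˣ) (f : Pol 1 m) :
    grad (conj g f) = cst g⁻¹.val * mp (conj g) (grad f) * cst g.val := by
  induction f using MvPolynomial.induction_on with
  | C a =>
    have : conj g (C a : Pol 1 m) = C a := by simp [conj]
    rw [this, grad_C]
    have h0 : mp (conj g) (0 : Matrix (Fin m) (Fin m) (Pol 1 m)) = 0 := by
      ext1 i j; simp [mp]
    rw [h0]; simp
  | add p q hp hq =>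
    rw [map_add, grad_add, hp, hq, grad_add, mp_add, mul_add, add_mul]
  | mul_X p a hp =>
    have hX : grad (conj g (X a : Pol 1 m)) = cst g⁻¹.val * mp (conj g) (grad (X a)) * cst g.val := by
      obtain ⟨a0, i, j⟩ := a
      obtain rfl : a0 = 0 := Subsingleton.elim _ _
      rw [conj_X, grad_sum]
      ext1 p q
      rw [grad_X]
      have h1 : mp (conj g) (Matrix.single j i 1 : Matrix (Fin m) (Fin m) (Pol 1 m))
          = Matrix.single j i 1 := by
        ext1 a b
        simp only [mp, Matrix.map_apply, Matrix.single_apply]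
        split_ifs <;> simp
      rw [h1]
      have h2 : (∑ b, grad (∑ a, (g.val i a * g⁻¹.val b j) • (X (0, a, b) : Pol 1 m))) p q
          = C (g.val i q * g⁻¹.val p j) := by
        simp only [grad_sum, grad_smul, grad_X, Matrix.sum_apply, Matrix.smul_apply,
          Matrix.single_apply]
        rw [Finset.sum_eq_single p, Finset.sum_eq_single q]
        · simp [smul_eq_C_mul]
        · intro b _ hb
          simp [hb]
        · simp
        · intro b _ hb
          apply Finset.sum_eq_zero
          intro a _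
          simp [hb]
        · simp
      rw [h2, Matrix.mul_apply, Finset.sum_eq_single i]
      · rw [Matrix.mul_single_apply_same]
        simp only [cst, Matrix.map_apply, C_mul]
        ring
      · intro b _ hb
        rw [Matrix.mul_single_apply_of_ne _ _ _ _ _ hb, zero_mul]
      · simp
    rw [map_mul, grad_mul, grad_mul, hp, hX, mp_add, mp_smul, mp_smul]
    simp only [mul_add, add_mul, Matrix.mul_smul, Matrix.smul_mul]

lemma trace_conj {R : Type*} [CommRing R] (a b M : Matrix (Fin m) (Fin m) R) (e : a * b = 1) :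
    (b * M * a).trace = M.trace := by
  rw [Matrix.trace_mul_comm, ← mul_assoc, e, one_mul]

lemma conj_aux {R : Type*} [CommRing R] (a b F H x : Matrix (Fin m) (Fin m) R) (e1 : a * b = 1)
    (e2 : b * a = 1) : (b * F * a * x - x * (b * F * a)) * (b * H * a)
      = b * ((F * (a * x * b) - a * x * b * F) * H) * a := by
  have l1 : (b * F * a * x) * (b * H * a) = b * (F * (a * x * b) * H) * a := by
    simp only [mul_assoc]
  have l2 : (x * (b * F * a)) * (b * H * a) = b * (a * x * b * F * H) * a := by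
    calc (x * (b * F * a)) * (b * H * a) = x * b * F * (a * b) * H * a := by
          simp only [mul_assoc]
      _ = (b * a) * (x * b * F * H * a) := by rw [e1, e2]; simp only [mul_assoc, mul_one, one_mul]
      _ = _ := by simp only [mul_assoc]
  rw [sub_mul, l1, l2, sub_mul, mul_sub, sub_mul]

lemma br_conj (k : ℕ) (g : (Matrix (Fin m) (Fin m) ℂ)ˣ) (f h : Pol 1 m) :
    conj g (br k f h) = br k (conj g f) (conj g h) := by
  have ht : conj g (xx m).trace = (xx m).trace := by
    rw [mp_trace, mp_conj_gen, Matrix.trace_mul_comm, ← mul_assoc, cst_inv_mul, one_mul]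
  have key : ((grad (conj g f) * xx m - xx m * grad (conj g f)) * grad (conj g h)).trace
      = conj g ((grad f * xx m - xx m * grad f) * grad h).trace := by
    rw [grad_conj, grad_conj, conj_aux _ _ _ _ _ (cst_mul_inv g) (cst_inv_mul g),
      trace_conj _ _ _ (cst_mul_inv g), mp_trace, mp_mul, mp_sub, mp_mul, mp_mul, mp_conj_gen]
  have h1 : conj g (br k f h) = conj g ((xx m).trace ^ k) *
      conj g ((grad f * xx m - xx m * grad f) * grad h).trace := map_mul _ _ _
  rw [h1, map_pow, ht, ← key]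
  rfl

lemma trace_br (k : ℕ) : IsTraceBracket (br k : Pol 1 m → Pol 1 m → Pol 1 m) := by
  refine ⟨poisson_br k, ?_, ?_⟩
  · intro g f h
    exact br_conj k g f h
  · intro P₁ P₂
    refine ⟨0, ?_⟩
    have h0 : (evalM m (0 : FreeAlgebra ℂ (Fin 1))) = 0 := by simp [evalM]
    rw [h0, br_trace]
    simp

lemma hom_br (k : ℕ) : IsHomogeneousBracket (k + 1) (br k : Pol 1 m → Pol 1 m → Pol 1 m) := by
  rintro ⟨a0, i, j⟩ ⟨b0, p, q⟩
  obtain rfl : a0 = 0 := Subsingleton.elim _ _
  obtain rfl : b0 = 0 := Subsingleton.elim _ _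
  rw [br_XX]
  have ht : IsHomogeneous ((xx m).trace ^ k) k := by
    have h1 : IsHomogeneous (xx m).trace 1 := by
      apply IsHomogeneous.sum
      intro s _
      exact isHomogeneous_X _ _
    simpa using h1.pow k
  have hd : ∀ (a b : Fin m) (c : Fin 1 × Fin m × Fin m),
      IsHomogeneous (dl a b * (X c : Pol 1 m)) 1 := by
    intro a b c
    unfold dl
    split_ifs
    · simpa using isHomogeneous_X ℂ c
    · simpa using isHomogeneous_zero _ _ _
  exact ht.mul ((hd _ _ _).sub (hd _ _ _))

end Pool.Agent.Y301.TB
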